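import Mathlib

set_option autoImplicit false

/-! The remainder of the exponential series on the imaginary axis. -/

namespace Pool.Agent.J4.H36.KW
open Finset Complex

lemma rem_aux (a : ℂ) (ha : ‖a‖ = 1) (hexp : ∀ x : ℝ, ‖cexp (a * x)‖ ≤ 1) (K : ℕ) :
    ∀ x : ℝ, 0 ≤ x → ‖cexp (a * x) - ∑ j ∈ range K, (a * x) ^ j / (j.factorial : ℂ)‖ ≤ x ^ K / (K.factorial : ℝ) := by
  induction K with
  | zero =>
    intro x _
    simpa using hexp x
  | succ K ih =>
    intro x hx
    have hd : ∀ y : ℝ, HasDerivAt (fun y : ℝ => cexp (a * y) - ∑ j ∈ range (K + 1), (a * y) ^ j / (j.factorial : ℂ))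
        (a * (cexp (a * y) - ∑ j ∈ range K, (a * y) ^ j / (j.factorial : ℂ))) y := by
      intro y
      have h0 : HasDerivAt (fun y : ℝ => a * (y : ℂ)) a y := by
        have := (Complex.ofRealCLM.hasDerivAt (x := y)).const_mul a
        simpa using this
      have h1 : HasDerivAt (fun y : ℝ => cexp (a * y)) (cexp (a * y) * a) y := h0.cexp
      have h2 : HasDerivAt (fun y : ℝ => ∑ j ∈ range (K + 1), (a * y) ^ j / (j.factorial : ℂ))
          (∑ j ∈ range (K + 1), ((j : ℂ) * (a * y) ^ (j - 1) * a) / (j.factorial : ℂ)) y := by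
        apply HasDerivAt.fun_sum
        intro j _
        exact (h0.pow j).div_const _
      have e : ∑ j ∈ range (K + 1), ((j : ℂ) * (a * y) ^ (j - 1) * a) / (j.factorial : ℂ) =
          a * ∑ j ∈ range K, (a * y) ^ j / (j.factorial : ℂ) := by
        rw [sum_range_succ']
        simp only [Nat.cast_zero, zero_mul, zero_div, add_zero, mul_sum, add_tsub_cancel_right]
        apply sum_congr rfl
        intro j _
        have hj : ((j + 1 : ℕ) : ℂ) ≠ 0 := by exact_mod_cast Nat.succ_ne_zero j
        have hf : (j.factorial : ℂ) ≠ 0 := by exact_mod_cast j.factorial_ne_zero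
        rw [Nat.factorial_succ]
        push_cast at hj ⊢
        field_simp
      rw [e] at h2
      have h3 := h1.sub h2
      have e2 : cexp (a * y) * a - a * ∑ j ∈ range K, (a * y) ^ j / (j.factorial : ℂ) =
          a * (cexp (a * y) - ∑ j ∈ range K, (a * y) ^ j / (j.factorial : ℂ)) := by ring
      rw [e2] at h3
      exact h3
    have hB : ∀ y : ℝ, HasDerivAt (fun y : ℝ => y ^ (K + 1) / ((K + 1).factorial : ℝ)) (y ^ K / (K.factorial : ℝ)) y := by
      intro y
      have h := (hasDerivAt_pow (K + 1) y).div_const ((K + 1).factorial : ℝ)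
      have e : ((K + 1 : ℕ) : ℝ) * y ^ (K + 1 - 1) / ((K + 1).factorial : ℝ) = y ^ K / (K.factorial : ℝ) := by
        have hj : ((K + 1 : ℕ) : ℝ) ≠ 0 := by exact_mod_cast Nat.succ_ne_zero K
        have hf : (K.factorial : ℝ) ≠ 0 := by exact_mod_cast K.factorial_ne_zero
        rw [Nat.factorial_succ, add_tsub_cancel_right]
        push_cast at hj ⊢
        field_simp
      rwa [e] at h
    have hfin := image_norm_le_of_norm_deriv_right_le_deriv_boundary (a := 0) (b := x)
      (f := fun y : ℝ => cexp (a * y) - ∑ j ∈ range (K + 1), (a * y) ^ j / (j.factorial : ℂ))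
      (f' := fun y : ℝ => a * (cexp (a * y) - ∑ j ∈ range K, (a * y) ^ j / (j.factorial : ℂ)))
      (B := fun y : ℝ => y ^ (K + 1) / ((K + 1).factorial : ℝ)) (B' := fun y : ℝ => y ^ K / (K.factorial : ℝ))
      (fun y _ => (hd y).continuousAt.continuousWithinAt) (fun y _ => (hd y).hasDerivWithinAt)
      (by
        rw [sum_range_succ']
        simp) hB (by
        intro y hy
        rw [norm_mul, ha, one_mul]
        exact ih y hy.1)
    exact hfin ⟨hx, le_rfl⟩

/-- the remainder of the exponential series at `i x` -/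
lemma exp_rem (K : ℕ) (x : ℝ) :
    ‖cexp ((x : ℂ) * I) - ∑ j ∈ range K, ((x : ℂ) * I) ^ j / (j.factorial : ℂ)‖ ≤ |x| ^ K / (K.factorial : ℝ) := by
  rcases le_total 0 x with hx | hx
  · have h := rem_aux I (by simp) (fun y => by rw [mul_comm, Complex.norm_exp_ofReal_mul_I]) K x hx
    rw [abs_of_nonneg hx]
    simpa [mul_comm] using h
  · have h := rem_aux (-I) (by simp) (fun y => by
      have : -I * (y : ℂ) = ((-y : ℝ) : ℂ) * I := by push_cast; ring
      rw [this, Complex.norm_exp_ofReal_mul_I]) K (-x) (by linarith)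
    rw [abs_of_nonpos hx]
    have e : -I * ((-x : ℝ) : ℂ) = (x : ℂ) * I := by push_cast; ring
    rw [e] at h
    exact h

/-- an even power is bounded by exponentials -/
lemma pow_le_exp (K : ℕ) (hK : Even K) (x : ℝ) :
    x ^ K / (K.factorial : ℝ) ≤ (1 / 2 : ℝ) ^ K * (Real.exp (2 * x) + Real.exp (-(2 * x))) := by
  have hf : (0 : ℝ) < (K.factorial : ℝ) := by exact_mod_cast K.factorial_pos
  have h1 : (2 * |x|) ^ K / (K.factorial : ℝ) ≤ Real.exp (2 * |x|) :=
    Real.pow_div_factorial_le_exp (2 * |x|) (by positivity) K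
  have h2 : Real.exp (2 * |x|) ≤ Real.exp (2 * x) + Real.exp (-(2 * x)) := by
    rcases abs_cases x with ⟨h, _⟩ | ⟨h, _⟩
    · rw [h]
      linarith [Real.exp_pos (-(2 * x))]
    · rw [h]
      have : 2 * -x = -(2 * x) := by ring
      rw [this]
      linarith [Real.exp_pos (2 * x)]
  have h3 : x ^ K = |x| ^ K := (hK.pow_abs x).symm
  have h4 : x ^ K / (K.factorial : ℝ) = (1 / 2 : ℝ) ^ K * ((2 * |x|) ^ K / (K.factorial : ℝ)) := by
    rw [h3, ← mul_div_assoc, ← mul_pow]
    congr 2
    ring
  rw [h4]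
  exact mul_le_mul_of_nonneg_left (h1.trans h2) (by positivity)

end Pool.Agent.J4.H36.KW
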