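import Pool.Agent.J4.H36.KW.Mom
import Pool.Agent.H341R2.WeilSharp

set_option autoImplicit false

/-! The subsets on which a shifted Legendre symbol is one form a pseudorandom family. -/

namespace Pool.Agent.J4.H36.KW
open Finset Polynomial

/-- the distribution of a random subset which is uniform in a finite family -/
noncomputable def law {Ω : Type} [Fintype Ω] (F : Ω → Finset ℕ) (D : Finset ℕ) : ℝ :=
  (open Classical in (#{ω | F ω = D} : ℝ)) / (Fintype.card Ω : ℝ)

lemma law_sum {Ω : Type} [Fintype Ω] (F : Ω → Finset ℕ) (H : ℕ) (hF : ∀ ω, F ω ⊆ Icc 1 H)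
    (Q : Finset ℕ → Prop) [DecidablePred Q] :
    ∑ D ∈ (Icc 1 H).powerset with Q D, law F D = (#{ω | Q (F ω)} : ℝ) / (Fintype.card Ω : ℝ) := by
  classical
  unfold law
  rw [← sum_div]
  congr 1
  rw [← Nat.cast_sum]
  congr 1
  rw [card_eq_sum_card_fiberwise (f := F) (t := (Icc 1 H).powerset.filter Q)]
  · apply sum_congr rfl
    intro D hD
    rw [mem_filter] at hD
    congr 1
    ext ω
    simp only [mem_filter, mem_univ, true_and]
    constructor
    · intro h
      rw [h]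
      exact ⟨hD.2, rfl⟩
    · exact fun h => h.2
  · intro ω hω
    simp only [coe_filter, Set.mem_ofPred_eq, mem_univ, true_and, mem_powerset] at hω ⊢
    exact ⟨hF ω, hω⟩

lemma law_pseudo {Ω : Type} [Fintype Ω] [Nonempty Ω] (F : Ω → Finset ℕ) (H K : ℕ) (p : ℝ) (hF : ∀ ω, F ω ⊆ Icc 1 H)
    (h : ∀ S ⊆ Icc 1 H, #S ≤ K → |(#{ω | S ⊆ F ω} : ℝ) / (Fintype.card Ω : ℝ) - p ^ #S| ≤ 1 / (H : ℝ) ^ (K + 1)) :
    Pseudo K p H (law F) where
  nonneg := fun D _ => by
    unfold law
    positivity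
  sum_one := by
    classical
    have h1 := law_sum F H hF (fun _ => True)
    simp only [filter_true] at h1
    rw [h1, card_univ]
    have : (0 : ℝ) < Fintype.card Ω := by exact_mod_cast Fintype.card_pos
    exact div_self this.ne'
  incl := fun S hS hSK => by
    rw [law_sum F H hF (fun D => S ⊆ D)]
    exact h S hS hSK

/-- the `d ≤ H` for which `a + d` is a nonzero square modulo `q` -/
noncomputable def QR (q H : ℕ) [Fact q.Prime] (a : ZMod q) : Finset ℕ :=
  {d ∈ Icc 1 H | quadraticChar (ZMod q) (a + (d : ZMod q)) = 1}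

lemma char_sum (q : ℕ) [Fact q.Prime] (hq2 : q ≠ 2) (B : Finset ℕ) (hB : B.Nonempty) (hBq : ∀ d ∈ B, d < q) :
    |∑ a : ZMod q, ∏ d ∈ B, ((quadraticChar (ZMod q) (a + (d : ZMod q)) : ℤ) : ℝ)| ≤ #B * Real.sqrt q := by
  classical
  have hF : ringChar (ZMod q) ≠ 2 := by rwa [ZMod.ringChar_zmod_n]
  obtain ⟨f, hf⟩ : ∃ f : (ZMod q)[X], f = ∏ d ∈ B, (X - C (-(d : ZMod q))) := ⟨_, rfl⟩
  have hdeg : f.natDegree = #B := by
    rw [hf]
    exact natDegree_finsetProd_X_sub_C_eq_card B _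
  have hmon : f.Monic := by
    rw [hf]
    exact monic_prod_of_monic _ _ (fun d _ => monic_X_sub_C _)
  have hsep : f.Separable := by
    rw [hf, separable_prod_X_sub_C_iff']
    intro x hx y hy hxy
    have h1 : (x : ZMod q) = (y : ZMod q) := neg_injective hxy
    rw [ZMod.natCast_eq_natCast_iff'] at h1
    rwa [Nat.mod_eq_of_lt (hBq x hx), Nat.mod_eq_of_lt (hBq y hy)] at h1
  have hns : ∀ (c : ZMod q) (h : (ZMod q)[X]), f ≠ C c * h ^ 2 := by
    intro c h heq
    have h1 : IsUnit h := by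
      apply hsep.squarefree h
      rw [heq, sq]
      exact dvd_mul_left _ _
    have h2 : h.natDegree = 0 := natDegree_eq_zero_of_isUnit h1
    have h3 : f.natDegree = 0 := by
      rw [heq]
      refine Nat.le_zero.1 ((natDegree_C_mul_le _ _).trans ?_)
      rw [natDegree_pow, h2]
    have h4 := card_pos.2 hB
    omega
  have h1 := Pool.Agent.H341R2.Sharp.weil_sharp hF f (by rw [hdeg]; exact card_pos.2 hB) hns
  have e : ∀ a : ZMod q, ∏ d ∈ B, ((quadraticChar (ZMod q) (a + (d : ZMod q)) : ℤ) : ℝ) =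
      ((quadraticChar (ZMod q) (f.eval a) : ℤ) : ℝ) := by
    intro a
    rw [hf, eval_prod, map_prod, Int.cast_prod]
    apply prod_congr rfl
    intro d _
    simp
  simp only [e]
  refine h1.trans ?_
  rw [hdeg, ZMod.card]
  apply mul_le_mul_of_nonneg_right _ (Real.sqrt_nonneg _)
  linarith

lemma incl_count (q H K : ℕ) [Fact q.Prime] (hq2 : q ≠ 2) (hH : H < q) (S : Finset ℕ) (hS : S ⊆ Icc 1 H) (hSK : #S ≤ K) :
    |(#{a : ZMod q | S ⊆ QR q H a} : ℝ) - q * (1 / 2 : ℝ) ^ #S| ≤ K * Real.sqrt q + K := by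
  classical
  obtain ⟨χ, hχ⟩ : ∃ χ : ZMod q → ℕ → ℝ, ∀ a d, χ a d = ((quadraticChar (ZMod q) (a + (d : ZMod q)) : ℤ) : ℝ) :=
    ⟨_, fun _ _ => rfl⟩
  have hSq : ∀ d ∈ S, d < q := fun d hd => by
    have := mem_Icc.1 (hS hd)
    omega
  have hK0 : (#S : ℝ) ≤ K := by exact_mod_cast hSK
  have hsq := Real.sqrt_nonneg (q : ℝ)
  -- the main sum
  have h1 : ∑ a : ZMod q, ∏ d ∈ S, ((1 + χ a d) / 2) = (1 / 2 : ℝ) ^ #S * ∑ B ∈ S.powerset, ∑ a : ZMod q, ∏ d ∈ B, χ a d := by
    rw [sum_comm, mul_sum]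
    apply sum_congr rfl
    intro a _
    have e : ∏ d ∈ S, ((1 + χ a d) / 2) = (1 / 2 : ℝ) ^ #S * ∏ d ∈ S, (χ a d + 1) := by
      rw [← prod_const, ← prod_mul_distrib]
      apply prod_congr rfl
      intro d _
      ring
    rw [e, prod_add]
    simp
  have h2 : |∑ a : ZMod q, ∏ d ∈ S, ((1 + χ a d) / 2) - q * (1 / 2 : ℝ) ^ #S| ≤ K * Real.sqrt q := by
    have e : ∑ a : ZMod q, ∏ d ∈ S, ((1 + χ a d) / 2) - q * (1 / 2 : ℝ) ^ #S =
        (1 / 2 : ℝ) ^ #S * ∑ B ∈ S.powerset.erase ∅, ∑ a : ZMod q, ∏ d ∈ B, χ a d := by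
      rw [h1, ← add_sum_erase _ _ (empty_mem_powerset S)]
      simp only [prod_empty, sum_const, nsmul_eq_mul, mul_one, card_univ, ZMod.card]
      ring
    rw [e, abs_mul, abs_of_nonneg (by positivity : (0 : ℝ) ≤ (1 / 2 : ℝ) ^ #S)]
    have h3 : |∑ B ∈ S.powerset.erase ∅, ∑ a : ZMod q, ∏ d ∈ B, χ a d| ≤ 2 ^ #S * (K * Real.sqrt q) := by
      refine (abs_sum_le_sum_abs _ _).trans ?_
      calc ∑ B ∈ S.powerset.erase ∅, |∑ a : ZMod q, ∏ d ∈ B, χ a d| ≤ ∑ B ∈ S.powerset.erase ∅, K * Real.sqrt q := by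
            apply sum_le_sum
            intro B hB
            rw [mem_erase, mem_powerset] at hB
            simp only [hχ]
            refine (char_sum q hq2 B (nonempty_iff_ne_empty.2 hB.1) (fun d hd => hSq d (hB.2 hd))).trans ?_
            apply mul_le_mul_of_nonneg_right _ hsq
            have h4 : (#B : ℝ) ≤ #S := by exact_mod_cast card_le_card hB.2
            linarith
        _ ≤ ∑ B ∈ S.powerset, K * Real.sqrt q := by
            apply sum_le_sum_of_subset_of_nonneg (erase_subset _ _)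
            intro _ _ _
            positivity
        _ = _ := by
            rw [sum_const, card_powerset, nsmul_eq_mul]
            push_cast
            ring
    calc (1 / 2 : ℝ) ^ #S * |∑ B ∈ S.powerset.erase ∅, ∑ a : ZMod q, ∏ d ∈ B, χ a d| ≤
        (1 / 2 : ℝ) ^ #S * (2 ^ #S * (K * Real.sqrt q)) := mul_le_mul_of_nonneg_left h3 (by positivity)
      _ = _ := by
          rw [← mul_assoc, ← mul_pow]
          norm_num
  -- the pointwise comparison
  have hval : ∀ a d, χ a d = 0 ∨ χ a d = 1 ∨ χ a d = -1 := by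
    intro a d
    rw [hχ]
    rcases quadraticChar_isQuadratic (ZMod q) (a + (d : ZMod q)) with h | h | h <;> simp [h]
  have hz : ∀ a d, χ a d = 0 → a = -(d : ZMod q) := by
    intro a d h
    rw [hχ, Int.cast_eq_zero, quadraticChar_eq_zero_iff] at h
    exact eq_neg_of_add_eq_zero_left h
  have h01 : ∀ a d, 0 ≤ (1 + χ a d) / 2 ∧ (1 + χ a d) / 2 ≤ 1 := by
    intro a d
    rcases hval a d with h | h | h <;> rw [h] <;> norm_num
  have h3 : ∀ a : ZMod q, |(if S ⊆ QR q H a then (1 : ℝ) else 0) - ∏ d ∈ S, ((1 + χ a d) / 2)| ≤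
      ∑ d ∈ S, (if a = -(d : ZMod q) then (1 : ℝ) else 0) := by
    intro a
    by_cases hex : ∃ d ∈ S, a = -(d : ZMod q)
    · obtain ⟨d₀, hd₀, ha⟩ := hex
      have h4 : (1 : ℝ) ≤ ∑ d ∈ S, (if a = -(d : ZMod q) then (1 : ℝ) else 0) := by
        refine le_trans ?_ (single_le_sum (f := fun d : ℕ => if a = -(d : ZMod q) then (1 : ℝ) else 0) (fun d _ => ?_) hd₀)
        · rw [if_pos ha]
        · split_ifs <;> norm_num
      refine le_trans ?_ h4
      have g1 : 0 ≤ ∏ d ∈ S, ((1 + χ a d) / 2) := prod_nonneg (fun d _ => (h01 a d).1)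
      have g2 : ∏ d ∈ S, ((1 + χ a d) / 2) ≤ 1 := prod_le_one (fun d _ => (h01 a d).1) (fun d _ => (h01 a d).2)
      rw [abs_le]
      split_ifs <;> constructor <;> linarith
    · push Not at hex
      have h4 : ∑ d ∈ S, (if a = -(d : ZMod q) then (1 : ℝ) else 0) = 0 := by
        apply sum_eq_zero
        intro d hd
        rw [if_neg (hex d hd)]
      rw [h4]
      have h5 : (if S ⊆ QR q H a then (1 : ℝ) else 0) = ∏ d ∈ S, ((1 + χ a d) / 2) := by
        split_ifs with hsub
        · symm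
          apply prod_eq_one
          intro d hd
          have := hsub hd
          unfold QR at this
          rw [mem_filter] at this
          rw [hχ, this.2]
          norm_num
        · rw [not_subset] at hsub
          obtain ⟨d, hd, hd2⟩ := hsub
          symm
          apply prod_eq_zero hd
          have h6 : χ a d = -1 := by
            rcases hval a d with h | h | h
            · exact absurd (hz a d h) (hex d hd)
            · exfalso
              apply hd2
              unfold QR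
              rw [mem_filter]
              refine ⟨hS hd, ?_⟩
              rw [hχ] at h
              exact_mod_cast h
            · exact h
          rw [h6]
          norm_num
      rw [h5, sub_self, abs_zero]
  have h4 : |(#{a : ZMod q | S ⊆ QR q H a} : ℝ) - ∑ a : ZMod q, ∏ d ∈ S, ((1 + χ a d) / 2)| ≤ K := by
    have e : (#{a : ZMod q | S ⊆ QR q H a} : ℝ) = ∑ a : ZMod q, (if S ⊆ QR q H a then (1 : ℝ) else 0) := by
      rw [← sum_filter, sum_const, nsmul_eq_mul, mul_one]
    rw [e, ← sum_sub_distrib]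
    refine (abs_sum_le_sum_abs _ _).trans ((sum_le_sum (fun a _ => h3 a)).trans ?_)
    rw [sum_comm]
    calc ∑ d ∈ S, ∑ a : ZMod q, (if a = -(d : ZMod q) then (1 : ℝ) else 0) = ∑ d ∈ S, (1 : ℝ) := by
          apply sum_congr rfl
          intro d _
          simp
      _ = #S := by simp
      _ ≤ K := hK0
  have := abs_sub_le (#{a : ZMod q | S ⊆ QR q H a} : ℝ) (∑ a : ZMod q, ∏ d ∈ S, ((1 + χ a d) / 2)) (q * (1 / 2 : ℝ) ^ #S)
  linarith

/-- the family of the subsets `QR q H a` is pseudorandom -/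
lemma qr_pseudo (q H K : ℕ) [Fact q.Prime] (hH : 2 ≤ H) (hHK : 2 * K ≤ H) (hq : H ^ (2 * K + 4) ≤ q) :
    Pseudo K (1 / 2) H (law (QR q H)) := by
  classical
  have hHq : H < q := by
    refine lt_of_lt_of_le ?_ hq
    calc H = H ^ 1 := (pow_one H).symm
      _ < H ^ (2 * K + 4) := Nat.pow_lt_pow_right (by omega) (by omega)
  have hq2 : q ≠ 2 := by omega
  have hH0 : (0 : ℝ) < H := by exact_mod_cast (by omega : 0 < H)
  have hq0 : (0 : ℝ) < q := by exact_mod_cast (by omega : 0 < q)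
  apply law_pseudo
  · intro a
    exact filter_subset _ _
  · intro S hS hSK
    have h1 := incl_count q H K hq2 hHq S hS hSK
    rw [ZMod.card]
    have e : (#{a : ZMod q | S ⊆ QR q H a} : ℝ) / (q : ℝ) - (1 / 2 : ℝ) ^ #S =
        ((#{a : ZMod q | S ⊆ QR q H a} : ℝ) - q * (1 / 2 : ℝ) ^ #S) / q := by
      field_simp
    rw [e, abs_div, abs_of_pos hq0, div_le_div_iff₀ hq0 (by positivity)]
    have hs0 : (0 : ℝ) < Real.sqrt q := Real.sqrt_pos.2 hq0
    have hs : (H : ℝ) ^ (K + 2) ≤ Real.sqrt q := by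
      apply Real.le_sqrt_of_sq_le
      rw [← pow_mul]
      calc (H : ℝ) ^ ((K + 2) * 2) = ((H ^ (2 * K + 4) : ℕ) : ℝ) := by push_cast; ring_nf
        _ ≤ q := by exact_mod_cast hq
    have hs1 : 1 ≤ Real.sqrt q := by
      rw [Real.one_le_sqrt]
      exact_mod_cast (by omega : 1 ≤ q)
    have hK : (K : ℝ) * Real.sqrt q + K ≤ H * Real.sqrt q := by
      have h2 : (2 * K : ℝ) ≤ H := by exact_mod_cast hHK
      have h3 : (K : ℝ) ≤ K * Real.sqrt q := le_mul_of_one_le_right (by positivity) hs1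
      have h4 := mul_le_mul_of_nonneg_right h2 hs0.le
      linarith
    calc |(#{a : ZMod q | S ⊆ QR q H a} : ℝ) - q * (1 / 2 : ℝ) ^ #S| * (H : ℝ) ^ (K + 1) ≤
        (H * Real.sqrt q) * (H : ℝ) ^ (K + 1) := mul_le_mul_of_nonneg_right (h1.trans hK) (by positivity)
      _ = (H : ℝ) ^ (K + 2) * Real.sqrt q := by ring
      _ ≤ Real.sqrt q * Real.sqrt q := mul_le_mul_of_nonneg_right hs hs0.le
      _ = 1 * q := by rw [Real.mul_self_sqrt hq0.le, one_mul]

end Pool.Agent.J4.H36.KW
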