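import Pool.Agent.J4.H36.MG.Pairs
import Pool.Agent.J4.H36.KW.Taylor

set_option autoImplicit false

/-! Comparison of a pseudorandom distribution of subsets with the independent one. -/

namespace Pool.Agent.J4.H36.KW
open Finset Complex
open Pool.Agent.J4.H36.MG (wt wt_nonneg wt_sum)

/-- a distribution `w` on the subsets of `{1, ..., H}` for which any `K` points are almost independent,
with probability `p` each -/
structure Pseudo (K : ℕ) (p : ℝ) (H : ℕ) (w : Finset ℕ → ℝ) : Prop where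
  nonneg : ∀ D ∈ (Icc 1 H).powerset, 0 ≤ w D
  sum_one : ∑ D ∈ (Icc 1 H).powerset, w D = 1
  incl : ∀ S ⊆ Icc 1 H, #S ≤ K → |∑ D ∈ (Icc 1 H).powerset with S ⊆ D, w D - p ^ #S| ≤ 1 / (H : ℝ) ^ (K + 1)

/-- the average of a function over the random subset -/
noncomputable def EW (w : Finset ℕ → ℝ) (H : ℕ) (F : Finset ℕ → ℂ) : ℂ := ∑ D ∈ (Icc 1 H).powerset, (w D : ℂ) * F D

lemma EW_norm {K : ℕ} {p : ℝ} {H : ℕ} {w : Finset ℕ → ℝ} (hw : Pseudo K p H w) (F : Finset ℕ → ℂ)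
    (hF : ∀ D, ‖F D‖ ≤ 1) : ‖EW w H F‖ ≤ 1 := by
  unfold EW
  refine (norm_sum_le _ _).trans ?_
  calc ∑ D ∈ (Icc 1 H).powerset, ‖(w D : ℂ) * F D‖ ≤ ∑ D ∈ (Icc 1 H).powerset, w D := by
        apply sum_le_sum
        intro D hD
        rw [norm_mul, Complex.norm_real, Real.norm_of_nonneg (hw.nonneg D hD)]
        exact mul_le_of_le_one_right (hw.nonneg D hD) (hF D)
    _ = 1 := hw.sum_one

lemma wt_incl (p : ℝ) (H : ℕ) (S : Finset ℕ) (hS : S ⊆ Icc 1 H) :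
    ∑ D ∈ (Icc 1 H).powerset with S ⊆ D, wt p H D = p ^ #S := by
  classical
  obtain ⟨b, hb⟩ : ∃ b : ℕ → ℝ, ∀ d, b d = if d ∈ S then 0 else 1 - p := ⟨_, fun _ => rfl⟩
  have h := Finset.prod_add (fun _ : ℕ => p) b (Icc 1 H)
  have e1 : ∏ d ∈ Icc 1 H, (p + b d) = p ^ #S := by
    rw [← prod_sdiff hS]
    have h1 : ∏ d ∈ Icc 1 H \ S, (p + b d) = 1 := by
      apply prod_eq_one
      intro d hd
      rw [mem_sdiff] at hd
      rw [hb, if_neg hd.2]
      ring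
    have h2 : ∏ d ∈ S, (p + b d) = p ^ #S := by
      rw [← prod_const]
      apply prod_congr rfl
      intro d hd
      rw [hb, if_pos hd, add_zero]
    rw [h1, h2, one_mul]
  rw [← e1, h, sum_filter]
  apply sum_congr rfl
  intro D hD
  rw [mem_powerset] at hD
  have hc : #(Icc 1 H \ D) = H - #D := by
    rw [card_sdiff_of_subset hD]
    simp
  split_ifs with hSD
  · unfold wt
    rw [prod_const]
    congr 1
    rw [← hc, ← prod_const]
    apply prod_congr rfl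
    intro d hd
    rw [mem_sdiff] at hd
    rw [hb, if_neg (fun h => hd.2 (hSD h))]
  · rw [not_subset] at hSD
    obtain ⟨d, hdS, hdD⟩ := hSD
    have : ∏ d ∈ Icc 1 H \ D, b d = 0 := prod_eq_zero (mem_sdiff.2 ⟨hS hdS, hdD⟩) (by rw [hb, if_pos hdS])
    rw [this, mul_zero]

/-- the independent distribution -/
lemma wt_pseudo (K : ℕ) (p : ℝ) (hp0 : 0 ≤ p) (hp1 : p ≤ 1) (H : ℕ) : Pseudo K p H (wt p H) where
  nonneg := fun D _ => wt_nonneg p hp0 hp1 H D
  sum_one := wt_sum p H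
  incl := fun S hS _ => by
    rw [wt_incl p H S hS, sub_self, abs_zero]
    positivity

lemma raw (H K : ℕ) (g : Finset ℕ → ℝ) (δ : ℝ)
    (hg : ∀ S ⊆ Icc 1 H, #S ≤ K → |∑ D ∈ (Icc 1 H).powerset with S ⊆ D, g D| ≤ δ) (u : ℕ → ℝ) (i : ℕ) (hi : i ≤ K) :
    |∑ D ∈ (Icc 1 H).powerset, g D * (∑ d ∈ D, u d) ^ i| ≤ (∑ d ∈ Icc 1 H, |u d|) ^ i * δ := by
  classical
  have h1 : ∀ (s : Finset ℕ) (v : ℕ → ℝ), (∑ d ∈ s, v d) ^ i = ∑ c ∈ Fintype.piFinset (fun _ : Fin i => s), ∏ k, v (c k) := by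
    intro s v
    rw [← Finset.prod_univ_sum]
    simp
  have h2 : ∀ D ∈ (Icc 1 H).powerset, g D * (∑ d ∈ D, u d) ^ i =
      ∑ c ∈ Fintype.piFinset (fun _ : Fin i => Icc 1 H), (∏ k, u (c k)) * (if univ.image c ⊆ D then g D else 0) := by
    intro D hD
    rw [mem_powerset] at hD
    rw [h1, mul_sum, ← sum_subset (Fintype.piFinset_subset (fun _ : Fin i => D) (fun _ => Icc 1 H) (fun _ => hD))]
    · apply sum_congr rfl
      intro c hc
      rw [Fintype.mem_piFinset] at hc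
      rw [if_pos, mul_comm]
      intro x hx
      rw [mem_image] at hx
      obtain ⟨k, _, rfl⟩ := hx
      exact hc k
    · intro c _ hc
      rw [if_neg, mul_zero]
      intro h
      apply hc
      rw [Fintype.mem_piFinset]
      intro k
      exact h (mem_image_of_mem _ (mem_univ _))
  rw [sum_congr rfl h2, sum_comm]
  simp only [← mul_sum]
  refine (abs_sum_le_sum_abs _ _).trans ?_
  rw [h1, sum_mul]
  apply sum_le_sum
  intro c hc
  rw [Fintype.mem_piFinset] at hc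
  rw [abs_mul, Finset.abs_prod]
  apply mul_le_mul_of_nonneg_left _ (prod_nonneg (fun _ _ => abs_nonneg _))
  rw [← sum_filter]
  apply hg
  · intro x hx
    rw [mem_image] at hx
    obtain ⟨k, _, rfl⟩ := hx
    exact hc k
  · refine card_image_le.trans ?_
    simpa using hi

lemma mom (H K : ℕ) (g : Finset ℕ → ℝ) (δ : ℝ)
    (hg : ∀ S ⊆ Icc 1 H, #S ≤ K → |∑ D ∈ (Icc 1 H).powerset with S ⊆ D, g D| ≤ δ) (u : ℕ → ℝ) (m : ℝ) (j : ℕ) (hj : j ≤ K) :
    |∑ D ∈ (Icc 1 H).powerset, g D * (∑ d ∈ D, u d + m) ^ j| ≤ (∑ d ∈ Icc 1 H, |u d| + |m|) ^ j * δ := by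
  have h1 : ∑ D ∈ (Icc 1 H).powerset, g D * (∑ d ∈ D, u d + m) ^ j =
      ∑ i ∈ range (j + 1), m ^ (j - i) * (j.choose i : ℝ) * ∑ D ∈ (Icc 1 H).powerset, g D * (∑ d ∈ D, u d) ^ i := by
    simp only [add_pow, mul_sum]
    rw [sum_comm]
    apply sum_congr rfl
    intro i _
    apply sum_congr rfl
    intro D _
    ring
  rw [h1, add_pow, sum_mul]
  refine (abs_sum_le_sum_abs _ _).trans ?_
  apply sum_le_sum
  intro i hi
  rw [mem_range] at hi
  rw [abs_mul, abs_mul, abs_pow, Nat.abs_cast]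
  have := raw H K g δ hg u i (by omega)
  calc |m| ^ (j - i) * (j.choose i : ℝ) * |∑ D ∈ (Icc 1 H).powerset, g D * (∑ d ∈ D, u d) ^ i| ≤
      |m| ^ (j - i) * (j.choose i : ℝ) * ((∑ d ∈ Icc 1 H, |u d|) ^ i * δ) :=
        mul_le_mul_of_nonneg_left this (by positivity)
    _ = _ := by ring

lemma mgf (p : ℝ) (hp0 : 0 ≤ p) (hp1 : p ≤ 1) (H : ℕ) (u : ℕ → ℝ) (hu : ∀ d ∈ Icc 1 H, |u d| ≤ 1) :
    ∑ D ∈ (Icc 1 H).powerset, wt p H D * Real.exp (∑ d ∈ D, u d - p * ∑ d ∈ Icc 1 H, u d) ≤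
      Real.exp (p * (1 - p) * ∑ d ∈ Icc 1 H, u d ^ 2) := by
  classical
  have hq : 0 ≤ 1 - p := by linarith
  have h1 : ∑ D ∈ (Icc 1 H).powerset, wt p H D * Real.exp (∑ d ∈ D, u d - p * ∑ d ∈ Icc 1 H, u d) =
      ∏ d ∈ Icc 1 H, (p * Real.exp ((1 - p) * u d) + (1 - p) * Real.exp (-(p * u d))) := by
    rw [Finset.prod_add]
    apply sum_congr rfl
    intro D hD
    rw [mem_powerset] at hD
    have hc : #(Icc 1 H \ D) = H - #D := by
      rw [card_sdiff_of_subset hD]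
      simp
    rw [prod_mul_distrib, prod_mul_distrib, prod_const, prod_const, hc, ← Real.exp_sum, ← Real.exp_sum]
    have e1 : (∑ d ∈ D, u d - p * ∑ d ∈ Icc 1 H, u d : ℝ) =
        ∑ d ∈ D, (1 - p) * u d + ∑ d ∈ Icc 1 H \ D, (-(p * u d)) := by
      rw [← sum_sdiff hD, sum_neg_distrib, ← mul_sum, ← mul_sum]
      ring
    rw [e1, Real.exp_add]
    unfold wt
    ring
  rw [h1, mul_sum, Real.exp_sum]
  apply prod_le_prod
  · intro d _
    positivity
  · intro d hd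
    have hud := hu d hd
    have h2 : ∀ y : ℝ, |y| ≤ 1 → Real.exp y ≤ 1 + y + y ^ 2 := by
      intro y hy
      have h := Real.abs_exp_sub_one_sub_id_le hy
      have := (abs_le.1 h).2
      linarith
    have a0 := abs_nonneg (u d)
    have h3 := h2 ((1 - p) * u d) (by rw [abs_mul, abs_of_nonneg hq]; nlinarith)
    have h4 := h2 (-(p * u d)) (by rw [abs_neg, abs_mul, abs_of_nonneg hp0]; nlinarith)
    have h5 : 1 + p * (1 - p) * u d ^ 2 ≤ Real.exp (p * (1 - p) * u d ^ 2) := by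
      have := Real.add_one_le_exp (p * (1 - p) * u d ^ 2)
      linarith
    refine le_trans ?_ h5
    have h6 := mul_le_mul_of_nonneg_left h3 hp0
    have h7 := mul_le_mul_of_nonneg_left h4 hq
    nlinarith

/-- the characteristic function of a pseudorandom sum is close to the one for independent choices -/
lemma kw_diff {K : ℕ} {p : ℝ} {H : ℕ} {w : Finset ℕ → ℝ} (hw : Pseudo K p H w) (hp0 : 0 ≤ p) (hp1 : p ≤ 1)
    (hH : 1 ≤ H) (hK : Even K) (u : ℕ → ℝ) (hu : ∀ d ∈ Icc 1 H, |u d| ≤ 1 / 2) :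
    ‖∑ D ∈ (Icc 1 H).powerset, (w D : ℂ) * cexp (((∑ d ∈ D, u d - p * ∑ d ∈ Icc 1 H, u d : ℝ) : ℂ) * I) -
      ∑ D ∈ (Icc 1 H).powerset, (wt p H D : ℂ) * cexp (((∑ d ∈ D, u d - p * ∑ d ∈ Icc 1 H, u d : ℝ) : ℂ) * I)‖ ≤
    4 / H + 4 * (1 / 2 : ℝ) ^ K * Real.exp (4 * (p * (1 - p) * ∑ d ∈ Icc 1 H, u d ^ 2)) := by
  classical
  have hH0 : (0 : ℝ) < H := by exact_mod_cast hH
  have hH1 : (1 : ℝ) ≤ H := by exact_mod_cast hH
  obtain ⟨m, hm⟩ : ∃ m : ℝ, m = -(p * ∑ d ∈ Icc 1 H, u d) := ⟨_, rfl⟩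
  obtain ⟨T, hT⟩ : ∃ T : Finset ℕ → ℝ, ∀ D, T D = ∑ d ∈ D, u d + m := ⟨_, fun _ => rfl⟩
  have hT' : ∀ D, (∑ d ∈ D, u d - p * ∑ d ∈ Icc 1 H, u d) = T D := by
    intro D
    rw [hT, hm]
    ring
  simp only [hT']
  obtain ⟨g, hg⟩ : ∃ g : Finset ℕ → ℝ, ∀ D, g D = w D - wt p H D := ⟨_, fun _ => rfl⟩
  have hgS : ∀ S ⊆ Icc 1 H, #S ≤ K → |∑ D ∈ (Icc 1 H).powerset with S ⊆ D, g D| ≤ 1 / (H : ℝ) ^ (K + 1) := by
    intro S hS hSK
    simp only [hg]
    rw [sum_sub_distrib, wt_incl p H S hS]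
    exact hw.incl S hS hSK
  have hsu : ∑ d ∈ Icc 1 H, |u d| ≤ H / 2 := by
    calc ∑ d ∈ Icc 1 H, |u d| ≤ ∑ d ∈ Icc 1 H, (1 / 2 : ℝ) := sum_le_sum hu
      _ = H / 2 := by simp; ring
  have hsm : |m| ≤ H / 2 := by
    rw [hm, abs_neg, abs_mul, abs_of_nonneg hp0]
    calc p * |∑ d ∈ Icc 1 H, u d| ≤ 1 * |∑ d ∈ Icc 1 H, u d| := mul_le_mul_of_nonneg_right hp1 (abs_nonneg _)
      _ ≤ H / 2 := by rw [one_mul]; exact (abs_sum_le_sum_abs _ _).trans hsu
  have hmom : ∀ j ≤ K, |∑ D ∈ (Icc 1 H).powerset, g D * T D ^ j| ≤ 1 / H := by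
    intro j hj
    simp only [hT]
    refine (mom H K g _ hgS u m j hj).trans ?_
    have h1 : (∑ d ∈ Icc 1 H, |u d| + |m|) ^ j ≤ (H : ℝ) ^ K := by
      refine (pow_le_pow_left₀ (by positivity) (by linarith : ∑ d ∈ Icc 1 H, |u d| + |m| ≤ H) j).trans ?_
      exact pow_le_pow_right₀ hH1 hj
    calc (∑ d ∈ Icc 1 H, |u d| + |m|) ^ j * (1 / (H : ℝ) ^ (K + 1)) ≤ (H : ℝ) ^ K * (1 / (H : ℝ) ^ (K + 1)) :=
          mul_le_mul_of_nonneg_right h1 (by positivity)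
      _ = 1 / H := by
          rw [pow_succ]
          field_simp
  -- the Taylor polynomial
  obtain ⟨R, hR⟩ : ∃ R : ℝ → ℂ, ∀ x, R x = cexp ((x : ℂ) * I) - ∑ j ∈ range K, ((x : ℂ) * I) ^ j / (j.factorial : ℂ) :=
    ⟨_, fun _ => rfl⟩
  have hRb : ∀ x, ‖R x‖ ≤ x ^ K / (K.factorial : ℝ) := by
    intro x
    rw [hR]
    refine (exp_rem K x).trans (le_of_eq ?_)
    rw [hK.pow_abs]
  have e1 : ∑ D ∈ (Icc 1 H).powerset, (w D : ℂ) * cexp ((T D : ℂ) * I) -
      ∑ D ∈ (Icc 1 H).powerset, (wt p H D : ℂ) * cexp ((T D : ℂ) * I) =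
      ∑ j ∈ range K, (I ^ j / (j.factorial : ℂ)) * ((∑ D ∈ (Icc 1 H).powerset, g D * T D ^ j : ℝ) : ℂ) +
      ∑ D ∈ (Icc 1 H).powerset, (g D : ℂ) * R (T D) := by
    rw [← sum_sub_distrib]
    have e2 : ∀ D, (w D : ℂ) * cexp ((T D : ℂ) * I) - (wt p H D : ℂ) * cexp ((T D : ℂ) * I) =
        ∑ j ∈ range K, (I ^ j / (j.factorial : ℂ)) * ((g D * T D ^ j : ℝ) : ℂ) + (g D : ℂ) * R (T D) := by
      intro D
      have e3 : ∑ j ∈ range K, (I ^ j / (j.factorial : ℂ)) * ((g D * T D ^ j : ℝ) : ℂ) =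
          (g D : ℂ) * ∑ j ∈ range K, ((T D : ℂ) * I) ^ j / (j.factorial : ℂ) := by
        rw [mul_sum]
        apply sum_congr rfl
        intro j _
        push_cast
        rw [mul_pow]
        ring
      rw [e3, hR, hg]
      push_cast
      ring
    rw [sum_congr rfl (fun D _ => e2 D), sum_add_distrib, sum_comm]
    congr 1
    apply sum_congr rfl
    intro j _
    rw [← mul_sum, Complex.ofReal_sum]
  rw [e1]
  -- the low moments
  have hlow : ‖∑ j ∈ range K, (I ^ j / (j.factorial : ℂ)) * ((∑ D ∈ (Icc 1 H).powerset, g D * T D ^ j : ℝ) : ℂ)‖ ≤ 3 / H := by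
    refine (norm_sum_le _ _).trans ?_
    calc ∑ j ∈ range K, ‖(I ^ j / (j.factorial : ℂ)) * ((∑ D ∈ (Icc 1 H).powerset, g D * T D ^ j : ℝ) : ℂ)‖ ≤
        ∑ j ∈ range K, (1 : ℝ) ^ j / (j.factorial : ℝ) * (1 / H) := by
          apply sum_le_sum
          intro j hj
          rw [mem_range] at hj
          rw [norm_mul, norm_div, norm_pow, Complex.norm_I, Complex.norm_natCast, Complex.norm_real]
          exact mul_le_mul_of_nonneg_left (hmom j hj.le) (by positivity)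
      _ ≤ Real.exp 1 * (1 / H) := by
          rw [← sum_mul]
          exact mul_le_mul_of_nonneg_right (Real.sum_le_exp_of_nonneg zero_le_one K) (by positivity)
      _ ≤ 3 / H := by
          have := Real.exp_one_lt_d9
          rw [mul_one_div]
          apply div_le_div_of_nonneg_right _ hH0.le
          linarith
  -- the remainder
  have hfac : (1 : ℝ) ≤ (K.factorial : ℝ) := by exact_mod_cast K.factorial_pos
  have hf0 : (0 : ℝ) < (K.factorial : ℝ) := by linarith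
  have hrem : ‖∑ D ∈ (Icc 1 H).powerset, (g D : ℂ) * R (T D)‖ ≤
      1 / H + 2 * ∑ D ∈ (Icc 1 H).powerset, wt p H D * (T D ^ K / (K.factorial : ℝ)) := by
    have h1 : ∀ D ∈ (Icc 1 H).powerset, ‖(g D : ℂ) * R (T D)‖ ≤
        g D * T D ^ K * (1 / (K.factorial : ℝ)) + 2 * (wt p H D * (T D ^ K / (K.factorial : ℝ))) := by
      intro D hD
      rw [norm_mul, Complex.norm_real]
      have h2 : |g D| ≤ w D + wt p H D := by
        rw [hg]
        have a1 := hw.nonneg D hD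
        have a2 := wt_nonneg p hp0 hp1 H D
        rw [abs_le]
        constructor <;> linarith
      have h3 : 0 ≤ T D ^ K / (K.factorial : ℝ) := div_nonneg (hK.pow_nonneg _) hf0.le
      calc ‖g D‖ * ‖R (T D)‖ ≤ (w D + wt p H D) * (T D ^ K / (K.factorial : ℝ)) :=
            mul_le_mul h2 (hRb _) (norm_nonneg _) ((abs_nonneg _).trans h2)
        _ = _ := by
            rw [hg]
            ring
    refine (norm_sum_le _ _).trans ((sum_le_sum h1).trans ?_)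
    rw [sum_add_distrib, ← sum_mul, ← mul_sum]
    have h4 : (∑ D ∈ (Icc 1 H).powerset, g D * T D ^ K) * (1 / (K.factorial : ℝ)) ≤ 1 / H := by
      have h5 := (le_abs_self _).trans (hmom K le_rfl)
      have h6 : (1 / (K.factorial : ℝ)) ≤ 1 := by
        rw [div_le_one hf0]
        exact hfac
      calc (∑ D ∈ (Icc 1 H).powerset, g D * T D ^ K) * (1 / (K.factorial : ℝ)) ≤ (1 / H) * (1 / (K.factorial : ℝ)) :=
            mul_le_mul_of_nonneg_right h5 (by positivity)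
        _ ≤ (1 / H) * 1 := mul_le_mul_of_nonneg_left h6 (by positivity)
        _ = _ := mul_one _
    linarith
  have hexp : ∑ D ∈ (Icc 1 H).powerset, wt p H D * (T D ^ K / (K.factorial : ℝ)) ≤
      2 * (1 / 2 : ℝ) ^ K * Real.exp (4 * (p * (1 - p) * ∑ d ∈ Icc 1 H, u d ^ 2)) := by
    have h1 := mgf p hp0 hp1 H (fun d => 2 * u d) (fun d hd => by
      rw [abs_mul, abs_of_nonneg (by norm_num : (0 : ℝ) ≤ 2)]
      linarith [hu d hd])
    have h2 := mgf p hp0 hp1 H (fun d => -(2 * u d)) (fun d hd => by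
      rw [abs_neg, abs_mul, abs_of_nonneg (by norm_num : (0 : ℝ) ≤ 2)]
      linarith [hu d hd])
    have s1 : ∀ D, ∑ d ∈ D, 2 * u d - p * ∑ d ∈ Icc 1 H, 2 * u d = 2 * T D := by
      intro D
      rw [← hT', ← mul_sum, ← mul_sum]
      ring
    have s2 : ∀ D, ∑ d ∈ D, -(2 * u d) - p * ∑ d ∈ Icc 1 H, -(2 * u d) = -(2 * T D) := by
      intro D
      rw [← hT', sum_neg_distrib, sum_neg_distrib, ← mul_sum, ← mul_sum]
      ring
    have s3 : ∑ d ∈ Icc 1 H, (2 * u d) ^ 2 = 4 * ∑ d ∈ Icc 1 H, u d ^ 2 := by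
      rw [mul_sum]
      apply sum_congr rfl
      intro d _
      ring
    have s4 : ∑ d ∈ Icc 1 H, (-(2 * u d)) ^ 2 = 4 * ∑ d ∈ Icc 1 H, u d ^ 2 := by
      rw [mul_sum]
      apply sum_congr rfl
      intro d _
      ring
    simp only [s1, s3] at h1
    simp only [s2, s4] at h2
    have e4 : p * (1 - p) * (4 * ∑ d ∈ Icc 1 H, u d ^ 2) = 4 * (p * (1 - p) * ∑ d ∈ Icc 1 H, u d ^ 2) := by ring
    rw [e4] at h1 h2
    calc ∑ D ∈ (Icc 1 H).powerset, wt p H D * (T D ^ K / (K.factorial : ℝ)) ≤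
        ∑ D ∈ (Icc 1 H).powerset, wt p H D * ((1 / 2 : ℝ) ^ K * (Real.exp (2 * T D) + Real.exp (-(2 * T D)))) := by
          apply sum_le_sum
          intro D _
          exact mul_le_mul_of_nonneg_left (pow_le_exp K hK (T D)) (wt_nonneg p hp0 hp1 H D)
      _ = (1 / 2 : ℝ) ^ K * (∑ D ∈ (Icc 1 H).powerset, wt p H D * Real.exp (2 * T D) +
          ∑ D ∈ (Icc 1 H).powerset, wt p H D * Real.exp (-(2 * T D))) := by
          rw [← sum_add_distrib, mul_sum]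
          apply sum_congr rfl
          intro D _
          ring
      _ ≤ (1 / 2 : ℝ) ^ K * (Real.exp (4 * (p * (1 - p) * ∑ d ∈ Icc 1 H, u d ^ 2)) +
          Real.exp (4 * (p * (1 - p) * ∑ d ∈ Icc 1 H, u d ^ 2))) :=
            mul_le_mul_of_nonneg_left (add_le_add h1 h2) (by positivity)
      _ = _ := by ring
  refine (norm_add_le _ _).trans ?_
  have e5 : (4 : ℝ) / H = 3 / H + 1 / H := by ring
  rw [e5]
  linarith

end Pool.Agent.J4.H36.KW
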