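import Pool.Agent.J4.H36.MG.Main
import Pool.Agent.J4.H36.KW.Mom

set_option autoImplicit false

/-! The Gaussian law for the centred sums over pseudorandom subsets. -/

namespace Pool.Agent.J4.H36.KW
open Finset Filter Topology Complex
open Pool.Agent.J4.H66.MG (mu mu_abs cc cc_pos cc_half cc_one sg Phi)
open Pool.Agent.J4.H36.MG (wt wt_nonneg wt_sum ED ZD den avg_est ch df law2)

lemma Pseudo.mono {K K' : ℕ} {p : ℝ} {H : ℕ} {w : Finset ℕ → ℝ} (hw : Pseudo K' p H w) (hK : K ≤ K') (hH : 1 ≤ H) :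
    Pseudo K p H w where
  nonneg := hw.nonneg
  sum_one := hw.sum_one
  incl := fun S hS hSK => by
    refine (hw.incl S hS (hSK.trans hK)).trans ?_
    have hH1 : (1 : ℝ) ≤ H := by exact_mod_cast hH
    apply one_div_le_one_div_of_le (by positivity)
    exact pow_le_pow_right₀ hH1 (by omega)

/-- the difference of the two averages for one pair of windows -/
lemma pair_kw {K : ℕ} {p : ℝ} {H : ℕ} {w : Finset ℕ → ℝ} (hw : Pseudo K p H w) (hp0 : 0 < p) (hp1 : p < 1)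
    (hH : 1 ≤ H) (hK : Even K) (f : ℕ → ℝ) (hf : ∀ d, |f d| ≤ 1)
    (ε : ℝ) (hε : 0 < ε) (hsg : ε ≤ sg H f) (T : ℝ) (hT : 1 ≤ T) (hR : 4 * T ≤ den p H f)
    (P : ℕ × ℕ) (s t : ℝ) (hs : |s| ≤ T) (ht : |t| ≤ T) :
    ‖EW w H (fun D => cexp (((s * ZD p H f D P.1 + t * ZD p H f D P.2 : ℝ) : ℂ) * I)) -
      ED p H (fun D => cexp (((s * ZD p H f D P.1 + t * ZD p H f D P.2 : ℝ) : ℂ) * I))‖ ≤
      4 / H + 4 * (1 / 2 : ℝ) ^ K * Real.exp (32 * T ^ 2 / ε) := by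
  have hH0 : (0 : ℝ) < H := by exact_mod_cast hH
  have hq : 0 < 1 - p := by linarith
  have hsg0 : 0 < sg H f := lt_of_lt_of_le hε hsg
  have hcc := cc_pos
  obtain ⟨r, hr⟩ : ∃ r : ℝ, r = den p H f := ⟨_, rfl⟩
  rw [← hr] at hR
  have hr0 : 0 < r := by linarith
  have hr2 : r ^ 2 = p * (1 - p) * (cc * (H * sg H f)) := by
    rw [hr, den, Real.sq_sqrt (by positivity)]
  obtain ⟨u, hu⟩ : ∃ u : ℕ → ℝ, ∀ d, u d = f d * (s * mu (P.1 + d) + t * mu (P.2 + d)) / r := ⟨_, fun _ => rfl⟩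
  have hlin : ∀ D : Finset ℕ, s * ZD p H f D P.1 + t * ZD p H f D P.2 = ∑ d ∈ D, u d - p * ∑ d ∈ Icc 1 H, u d := by
    intro D
    have e1 : ∀ S : Finset ℕ, ∑ d ∈ S, u d =
        (s * ∑ d ∈ S, f d * mu (P.1 + d) + t * ∑ d ∈ S, f d * mu (P.2 + d)) / r := by
      intro S
      rw [mul_sum, mul_sum, ← sum_add_distrib, sum_div]
      apply sum_congr rfl
      intro d _
      rw [hu]
      ring
    rw [e1, e1]
    unfold ZD
    rw [← hr]
    ring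
  have hub : ∀ d, |u d| ≤ 2 * T / r := by
    intro d
    rw [hu, abs_div, abs_of_pos hr0]
    apply div_le_div_of_nonneg_right _ hr0.le
    rw [abs_mul]
    have a1 : |s * mu (P.1 + d) + t * mu (P.2 + d)| ≤ 2 * T := by
      refine (abs_add_le _ _).trans ?_
      rw [abs_mul, abs_mul]
      have b1 : |s| * |mu (P.1 + d)| ≤ T := (mul_le_of_le_one_right (abs_nonneg _) (mu_abs _)).trans hs
      have b2 : |t| * |mu (P.2 + d)| ≤ T := (mul_le_of_le_one_right (abs_nonneg _) (mu_abs _)).trans ht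
      linarith
    exact (mul_le_of_le_one_left (abs_nonneg _) (hf d)).trans a1
  have hhalf : 2 * T / r ≤ 1 / 2 := by
    rw [div_le_div_iff₀ hr0 (by norm_num)]
    linarith
  have h1 := kw_diff hw hp0.le hp1.le hH hK u (fun d _ => (hub d).trans hhalf)
  unfold EW ED
  simp only [hlin]
  refine h1.trans ?_
  have hu2 : ∑ d ∈ Icc 1 H, u d ^ 2 ≤ H * (2 * T / r) ^ 2 := by
    calc ∑ d ∈ Icc 1 H, u d ^ 2 ≤ ∑ d ∈ Icc 1 H, (2 * T / r) ^ 2 := by
          apply sum_le_sum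
          intro d _
          rw [← sq_abs]
          exact pow_le_pow_left₀ (abs_nonneg _) (hub d) 2
      _ = _ := by simp
  have hcH : ε * H / 2 ≤ cc * (H * sg H f) := by
    have h2 : 1 / 2 * (H * ε) ≤ cc * (H * sg H f) :=
      mul_le_mul cc_half (mul_le_mul_of_nonneg_left hsg hH0.le) (by positivity) hcc.le
    linarith
  have h3 : p * (1 - p) * ∑ d ∈ Icc 1 H, u d ^ 2 ≤ 8 * T ^ 2 / ε := by
    have h4 : p * (1 - p) * ∑ d ∈ Icc 1 H, u d ^ 2 ≤ p * (1 - p) * (H * (2 * T / r) ^ 2) :=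
      mul_le_mul_of_nonneg_left hu2 (by positivity)
    refine h4.trans ?_
    have e : p * (1 - p) * (H * (2 * T / r) ^ 2) = 4 * T ^ 2 * (p * (1 - p) * H) / r ^ 2 := by
      rw [div_pow]
      ring
    rw [e, div_le_div_iff₀ (by positivity) hε]
    have h5 : p * (1 - p) * H * ε ≤ 2 * r ^ 2 := by
      rw [hr2]
      have := mul_le_mul_of_nonneg_left hcH (by positivity : 0 ≤ p * (1 - p))
      linarith
    calc 4 * T ^ 2 * (p * (1 - p) * H) * ε = 4 * T ^ 2 * (p * (1 - p) * H * ε) := by ring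
      _ ≤ 4 * T ^ 2 * (2 * r ^ 2) := mul_le_mul_of_nonneg_left h5 (by positivity)
      _ = _ := by ring
  have h6 : 4 * (p * (1 - p) * ∑ d ∈ Icc 1 H, u d ^ 2) ≤ 32 * T ^ 2 / ε := by
    have : 4 * (8 * T ^ 2 / ε) = 32 * T ^ 2 / ε := by ring
    linarith
  have h7 := Real.exp_le_exp.2 h6
  have h8 := mul_le_mul_of_nonneg_left h7 (by positivity : (0 : ℝ) ≤ 4 * (1 / 2 : ℝ) ^ K)
  linarith

/-- the average over all the pairs of a dense set, with weights, for a pseudorandom distribution -/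
lemma avg_kw (ε V : ℝ) (hε : 0 < ε) (hV0 : 0 ≤ V) (T γ : ℝ) (hT : 1 ≤ T) (hγ : 0 < γ) :
    ∃ K : ℕ, 1 ≤ K ∧ ∀ p : ℝ, 0 < p → p < 1 → ∀ H : ℕ, K ≤ p * (1 - p) * H → ∀ w : Finset ℕ → ℝ, Pseudo K p H w →
    ∀ X ≥ H, ∀ f : ℕ → ℝ, (∀ d, |f d| ≤ 1) →
    ∑ d ∈ Ico 1 H, |f (d + 1) - f d| ≤ V → ε ≤ sg H f → ∀ A ⊆ Icc X (2 * X), ε * X ≤ #A →
    ∀ G : ℕ → ℕ → ℂ, (∀ n n', ‖G n n'‖ ≤ 1) → ∀ s t : ℝ, |s| ≤ T → |t| ≤ T →
    ‖(∑ n ∈ A, ∑ n' ∈ A, G n n' * EW w H (fun D => cexp (((s * ZD p H f D n + t * ZD p H f D n' : ℝ) : ℂ) * I))) / (#A : ℂ) ^ 2 -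
      ((Real.exp (-((s ^ 2 + t ^ 2) / 2)) : ℝ) : ℂ) * ((∑ n ∈ A, ∑ n' ∈ A, G n n') / (#A : ℂ) ^ 2)‖ ≤ γ := by
  obtain ⟨K₁, hK₁, h1⟩ := avg_est ε V hε hV0 T (γ / 2) hT (by positivity)
  obtain ⟨E, hE⟩ : ∃ E : ℝ, E = Real.exp (32 * T ^ 2 / ε) := ⟨_, rfl⟩
  have hE0 : 0 < E := by rw [hE]; exact Real.exp_pos _
  obtain ⟨n, hn⟩ := exists_pow_lt_of_lt_one (by positivity : 0 < γ / (16 * E)) (by norm_num : (1 / 2 : ℝ) < 1)
  obtain ⟨N, hN⟩ := exists_nat_gt (max (max K₁ (16 / γ)) (32 * T ^ 2 / ε))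
  have hN1 : K₁ ≤ N := ((le_max_left _ _).trans (le_max_left _ _)).trans hN.le
  have hN2 : 16 / γ ≤ N := ((le_max_right _ _).trans (le_max_left _ _)).trans hN.le
  have hN3 : 32 * T ^ 2 / ε ≤ N := (le_max_right _ _).trans hN.le
  refine ⟨2 * (n + N + 1), by omega, fun p hp0 hp1 H hH w hw X hX f hf hV hsg A hA hAc G hG s t hs ht => ?_⟩
  have hq : 0 < 1 - p := by linarith
  have hpq : p * (1 - p) ≤ 1 := by nlinarith
  have hHr : p * (1 - p) * H ≤ H := mul_le_of_le_one_left (by positivity) hpq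
  have hcast : (N : ℝ) + 1 ≤ ((2 * (n + N + 1) : ℕ) : ℝ) := by
    push_cast
    have : (0 : ℝ) ≤ n := by positivity
    have : (0 : ℝ) ≤ N := by positivity
    linarith
  have hNH : (N : ℝ) + 1 ≤ p * (1 - p) * H := hcast.trans hH
  have hHN : (N : ℝ) + 1 ≤ H := hNH.trans hHr
  have hN0 : (0 : ℝ) ≤ N := by positivity
  have hH1 : 1 ≤ H := by
    have : (1 : ℝ) ≤ H := by linarith
    exact_mod_cast this
  have hHp : (0 : ℝ) < H := by exact_mod_cast hH1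
  have hcc := cc_pos
  have hX0 : (0 : ℝ) < X := by exact_mod_cast (by omega : 0 < X)
  have hA0 : (0 : ℝ) < #A := lt_of_lt_of_le (by positivity) hAc
  have hden : 4 * T ≤ den p H f := by
    unfold den
    apply Real.le_sqrt_of_sq_le
    have h2 : p * (1 - p) * (1 / 2 * (H * ε)) ≤ p * (1 - p) * (cc * (H * sg H f)) := by
      apply mul_le_mul_of_nonneg_left _ (by positivity)
      exact mul_le_mul cc_half (mul_le_mul_of_nonneg_left hsg hHp.le) (by positivity) hcc.le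
    have h3 : 32 * T ^ 2 ≤ ε * (p * (1 - p) * H) := by
      have h4 : 32 * T ^ 2 / ε ≤ p * (1 - p) * H := by linarith
      rw [div_le_iff₀ hε] at h4
      linarith
    nlinarith
  have h2 := h1 p hp0 hp1 H (by linarith) X hX f hf hV hsg A hA hAc G hG s t hs ht
  have hd : ∀ n n' : ℕ, ‖EW w H (fun D => cexp (((s * ZD p H f D n + t * ZD p H f D n' : ℝ) : ℂ) * I)) -
      ED p H (fun D => cexp (((s * ZD p H f D n + t * ZD p H f D n' : ℝ) : ℂ) * I))‖ ≤ γ / 2 := by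
    intro a b
    refine (pair_kw hw hp0 hp1 hH1 (even_two_mul _) f hf ε hε hsg T hT hden (a, b) s t hs ht).trans ?_
    rw [← hE]
    have h3 : 4 / (H : ℝ) ≤ γ / 4 := by
      rw [div_le_iff₀ hγ] at hN2
      rw [div_le_div_iff₀ hHp (by norm_num)]
      have : (N : ℝ) * γ ≤ H * γ := mul_le_mul_of_nonneg_right (by linarith) hγ.le
      linarith
    have h4 : 4 * (1 / 2 : ℝ) ^ (2 * (n + N + 1)) * E ≤ γ / 4 := by
      have h5 : (1 / 2 : ℝ) ^ (2 * (n + N + 1)) ≤ (1 / 2 : ℝ) ^ n :=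
        pow_le_pow_of_le_one (by norm_num) (by norm_num) (by omega)
      have h6 := h5.trans hn.le
      calc 4 * (1 / 2 : ℝ) ^ (2 * (n + N + 1)) * E ≤ 4 * (γ / (16 * E)) * E := by gcongr
        _ = γ / 4 := by
            field_simp
            ring
    linarith
  have e1 : (∑ n ∈ A, ∑ n' ∈ A, G n n' * EW w H (fun D => cexp (((s * ZD p H f D n + t * ZD p H f D n' : ℝ) : ℂ) * I))) / (#A : ℂ) ^ 2 -
      (∑ n ∈ A, ∑ n' ∈ A, G n n' * ED p H (fun D => cexp (((s * ZD p H f D n + t * ZD p H f D n' : ℝ) : ℂ) * I))) / (#A : ℂ) ^ 2 =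
      (∑ P ∈ A ×ˢ A, G P.1 P.2 * (EW w H (fun D => cexp (((s * ZD p H f D P.1 + t * ZD p H f D P.2 : ℝ) : ℂ) * I)) -
        ED p H (fun D => cexp (((s * ZD p H f D P.1 + t * ZD p H f D P.2 : ℝ) : ℂ) * I)))) / ((#A : ℝ) : ℂ) ^ 2 := by
    rw [sum_product, ← sub_div]
    simp only [mul_sub, sum_sub_distrib]
    push_cast
    rfl
  have h3 : ‖(∑ n ∈ A, ∑ n' ∈ A, G n n' * EW w H (fun D => cexp (((s * ZD p H f D n + t * ZD p H f D n' : ℝ) : ℂ) * I))) / (#A : ℂ) ^ 2 -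
      (∑ n ∈ A, ∑ n' ∈ A, G n n' * ED p H (fun D => cexp (((s * ZD p H f D n + t * ZD p H f D n' : ℝ) : ℂ) * I))) / (#A : ℂ) ^ 2‖ ≤ γ / 2 := by
    rw [e1, norm_div, norm_pow, Complex.norm_real, Real.norm_of_nonneg hA0.le, div_le_iff₀ (by positivity)]
    refine (norm_sum_le _ _).trans ?_
    calc ∑ P ∈ A ×ˢ A, ‖G P.1 P.2 * (EW w H (fun D => cexp (((s * ZD p H f D P.1 + t * ZD p H f D P.2 : ℝ) : ℂ) * I)) -
        ED p H (fun D => cexp (((s * ZD p H f D P.1 + t * ZD p H f D P.2 : ℝ) : ℂ) * I)))‖ ≤ ∑ P ∈ A ×ˢ A, γ / 2 := by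
          apply sum_le_sum
          intro P _
          rw [norm_mul]
          exact (mul_le_of_le_one_left (norm_nonneg _) (hG _ _)).trans (hd P.1 P.2)
      _ = γ / 2 * (#A : ℝ) ^ 2 := by
          rw [sum_const, card_product, nsmul_eq_mul]
          push_cast
          ring
  have := norm_sub_le_norm_sub_add_norm_sub
    ((∑ n ∈ A, ∑ n' ∈ A, G n n' * EW w H (fun D => cexp (((s * ZD p H f D n + t * ZD p H f D n' : ℝ) : ℂ) * I))) / (#A : ℂ) ^ 2)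
    ((∑ n ∈ A, ∑ n' ∈ A, G n n' * ED p H (fun D => cexp (((s * ZD p H f D n + t * ZD p H f D n' : ℝ) : ℂ) * I))) / (#A : ℂ) ^ 2)
    (((Real.exp (-((s ^ 2 + t ^ 2) / 2)) : ℝ) : ℂ) * ((∑ n ∈ A, ∑ n' ∈ A, G n n') / (#A : ℂ) ^ 2))
  linarith

/-- the average of the product of two characteristic functions -/
lemma ch_mul' (w : Finset ℕ → ℝ) (H : ℕ) (A : Finset ℕ) (Z : Finset ℕ → ℕ → ℝ) (s t : ℝ) :
    ∑ D ∈ (Icc 1 H).powerset, (w D : ℂ) * (ch A (Z D) s * ch A (Z D) t) =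
    (∑ n ∈ A, ∑ n' ∈ A, EW w H (fun D => cexp (((s * Z D n + t * Z D n' : ℝ) : ℂ) * I))) / (#A : ℂ) ^ 2 := by
  unfold EW ch
  have e1 : ∀ D ∈ (Icc 1 H).powerset, (w D : ℂ) * ((∑ n ∈ A, cexp (((s * Z D n : ℝ) : ℂ) * I)) / #A *
      ((∑ n ∈ A, cexp (((t * Z D n : ℝ) : ℂ) * I)) / #A)) =
      (∑ n ∈ A, ∑ n' ∈ A, (w D : ℂ) * cexp (((s * Z D n + t * Z D n' : ℝ) : ℂ) * I)) / (#A : ℂ) ^ 2 := by
    intro D _
    rw [div_mul_div_comm, sum_mul_sum, mul_div_assoc', mul_sum, sq]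
    congr 1
    apply sum_congr rfl
    intro n _
    rw [mul_sum]
    apply sum_congr rfl
    intro n' _
    rw [← Complex.exp_add]
    congr 2
    push_cast
    ring
  rw [sum_congr rfl e1, ← sum_div]
  congr 1
  rw [sum_comm]
  apply sum_congr rfl
  intro n _
  rw [sum_comm]

/-- the law of the centred sum on any dense set, for almost all the subsets -/
theorem partK (ε V : ℝ) (hε : 0 < ε) (hV0 : 0 ≤ V) : ∃ K : ℕ, ∀ p : ℝ, 0 < p → p < 1 → ∀ H : ℕ, K ≤ p * (1 - p) * H →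
    ∀ w : Finset ℕ → ℝ, Pseudo K p H w → ∀ X ≥ H,
    ∀ f : ℕ → ℝ, (∀ d, |f d| ≤ 1) → ∑ d ∈ Ico 1 H, |f (d + 1) - f d| ≤ V → ε ≤ sg H f →
    ∀ A ⊆ Icc X (2 * X), ε * X ≤ #A →
    ∑ D ∈ (Icc 1 H).powerset, (open Classical in if ∀ t, |df A (ZD p H f D) t - Phi t| ≤ ε then 0 else w D) ≤ ε := by
  by_contra hcon
  push Not at hcon
  have hc : ∀ m : ℕ, ∃ p : ℝ, 0 < p ∧ p < 1 ∧ ∃ H : ℕ, ((m + 1 : ℕ) : ℝ) ≤ p * (1 - p) * H ∧ ∃ w : Finset ℕ → ℝ,
      Pseudo (m + 1) p H w ∧ ∃ X ≥ H, ∃ f : ℕ → ℝ,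
      (∀ d, |f d| ≤ 1) ∧ ∑ d ∈ Ico 1 H, |f (d + 1) - f d| ≤ V ∧ ε ≤ sg H f ∧ ∃ A ⊆ Icc X (2 * X), ε * X ≤ #A ∧
      ε < ∑ D ∈ (Icc 1 H).powerset, (open Classical in if ∀ t, |df A (ZD p H f D) t - Phi t| ≤ ε then 0 else w D) :=
    fun m => hcon (m + 1)
  choose p hp0 hp1 H hH w hw X hX f hf hV hsg A hA hAc hbad using hc
  have hm1 : ∀ m : ℕ, (1 : ℝ) ≤ ((m + 1 : ℕ) : ℝ) := fun m => by push_cast; linarith [(Nat.cast_nonneg m : (0 : ℝ) ≤ m)]
  have hH1 : ∀ m, 1 ≤ H m := by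
    intro m
    have h1 := (hm1 m).trans (hH m)
    have h2 : p m * (1 - p m) ≤ 1 := by nlinarith [hp0 m, hp1 m]
    have h3 : p m * (1 - p m) * H m ≤ H m := mul_le_of_le_one_left (by positivity) h2
    exact_mod_cast h1.trans h3
  have hXp : ∀ m, (0 : ℝ) < X m := by
    intro m
    have := (hH1 m).trans (hX m)
    exact_mod_cast (by omega : 0 < X m)
  have hAn : ∀ m, (A m).Nonempty := by
    intro m
    rw [← card_pos]
    have h1 := hXp m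
    have h2 : (0 : ℝ) < #(A m) := lt_of_lt_of_le (by positivity) (hAc m)
    exact_mod_cast h2
  obtain ⟨M, hM⟩ := law2 (fun m => (Icc 1 (H m)).powerset) w
    (fun m D hD => (hw m).nonneg D hD) (fun m => (hw m).sum_one) A hAn (fun m D => ZD (p m) (H m) (f m) D) (by
      intro s t
      rw [Metric.tendsto_atTop]
      intro γ hγ
      obtain ⟨T, hT⟩ : ∃ T : ℝ, T = 1 + |s| + |t| := ⟨_, rfl⟩
      have hs0 := abs_nonneg s
      have ht0 := abs_nonneg t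
      obtain ⟨K, hK1, hK⟩ := avg_kw ε V hε hV0 T (γ / 2) (by linarith) (by positivity)
      refine ⟨K, fun m hm => ?_⟩
      have hmN : (K : ℝ) ≤ ((m + 1 : ℕ) : ℝ) := by exact_mod_cast (by omega : K ≤ m + 1)
      have h1 := hK (p m) (hp0 m) (hp1 m) (H m) (by linarith [hH m]) (w m) ((hw m).mono (by omega) (hH1 m)) (X m) (hX m)
        (f m) (hf m) (hV m) (hsg m) (A m)
        (hA m) (hAc m) (fun _ _ => 1) (by simp) s t (by linarith) (by linarith)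
      rw [ch_mul', dist_eq_norm]
      have hA0 : ((#(A m) : ℕ) : ℂ) ≠ 0 := by
        have := (card_pos.2 (hAn m)).ne'
        exact_mod_cast this
      simp only [one_mul, sum_const, nsmul_eq_mul, mul_one] at h1
      rw [show ((#(A m) : ℂ) * (#(A m) : ℂ)) / (#(A m) : ℂ) ^ 2 = 1 by field_simp, mul_one] at h1
      linarith) ε hε
  exact absurd (hM M le_rfl) (not_le.2 (hbad M))

end Pool.Agent.J4.H36.KW
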