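import Pool.Agent.J4.H36.MG.Transfer
import Pool.Agent.J4.H36.KW.Main

set_option autoImplicit false

/-! The transfer of the Gaussian law between the whole windows and pseudorandom subsets of the windows. -/

namespace Pool.Agent.J4.H36.KW
open Finset Filter Topology Complex MeasureTheory ProbabilityTheory
open Pool.Agent.J4.H66.MG (mu mu_abs cc cc_pos sg Phi Phi_cdf)
open Pool.Agent.J4.H36.MG

/-- the two averages of the products of the characteristic functions -/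
lemma diffK (p : ℝ) (hp0 : 0 < p) (hp1 : p < 1) (T γ : ℝ) (hT : 1 ≤ T) (hγ : 0 < γ) : ∃ K : ℕ, 1 ≤ K ∧
    ∀ L : ℕ, K ≤ p * (1 - p) * L → ∀ w : Finset ℕ → ℝ, Pseudo K p L w → ∀ A : Finset ℕ, A.Nonempty →
    ∀ r : ℝ, 0 < r → ∀ s t : ℝ, |den p L (fun _ => 1) / r * s| ≤ T → |den p L (fun _ => 1) / r * t| ≤ T →
    ‖∑ D ∈ (Icc 1 L).powerset, (w D : ℂ) * (ch A (SD r D) s * ch A (SD r D) t) -
      ∑ D ∈ (Icc 1 L).powerset, (wt p L D : ℂ) * (ch A (SD r D) s * ch A (SD r D) t)‖ ≤ γ := by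
  obtain ⟨E, hE⟩ : ∃ E : ℝ, E = Real.exp (32 * T ^ 2 / 1) := ⟨_, rfl⟩
  have hE0 : 0 < E := by rw [hE]; exact Real.exp_pos _
  obtain ⟨n, hn⟩ := exists_pow_lt_of_lt_one (by positivity : 0 < γ / (8 * E)) (by norm_num : (1 / 2 : ℝ) < 1)
  obtain ⟨N, hN⟩ := exists_nat_gt (max (8 / γ) (32 * T ^ 2))
  have hN2 : 8 / γ ≤ N := (le_max_left _ _).trans hN.le
  have hN3 : 32 * T ^ 2 ≤ N := (le_max_right _ _).trans hN.le
  refine ⟨2 * (n + N + 1), by omega, fun L hL w hw A hA r hr s t hs ht => ?_⟩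
  have hq : 0 < 1 - p := by linarith
  have hpq : p * (1 - p) ≤ 1 := by nlinarith
  have hHr : p * (1 - p) * L ≤ L := mul_le_of_le_one_left (by positivity) hpq
  have hcast : (N : ℝ) + 1 ≤ ((2 * (n + N + 1) : ℕ) : ℝ) := by
    push_cast
    have : (0 : ℝ) ≤ n := by positivity
    have : (0 : ℝ) ≤ N := by positivity
    linarith
  have hNH : (N : ℝ) + 1 ≤ p * (1 - p) * L := hcast.trans hL
  have hHN : (N : ℝ) + 1 ≤ L := hNH.trans hHr
  have hN0 : (0 : ℝ) ≤ N := by positivity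
  have hL1 : 1 ≤ L := by
    have : (1 : ℝ) ≤ L := by linarith
    exact_mod_cast this
  have hLp : (0 : ℝ) < L := by exact_mod_cast hL1
  have hcc := cc_pos
  have hsg : sg L (fun _ => 1) = 1 := by
    unfold sg
    simp only [one_pow, sum_const, Nat.card_Icc, add_tsub_cancel_right, nsmul_eq_mul, mul_one]
    exact div_self hLp.ne'
  have hA0 : (0 : ℝ) < #A := by exact_mod_cast card_pos.2 hA
  have hden : 4 * T ≤ den p L (fun _ => 1) := by
    unfold den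
    apply Real.le_sqrt_of_sq_le
    rw [hsg]
    have h2 : p * (1 - p) * (1 / 2 * (L * 1)) ≤ p * (1 - p) * (cc * (L * 1)) := by
      apply mul_le_mul_of_nonneg_left _ (by positivity)
      exact mul_le_mul_of_nonneg_right Pool.Agent.J4.H66.MG.cc_half (by positivity)
    nlinarith
  obtain ⟨a, ha⟩ : ∃ a : ℝ, a = den p L (fun _ => 1) / r := ⟨_, rfl⟩
  rw [← ha] at hs ht
  have hid : ∀ (D : Finset ℕ) (n : ℕ), SD r D n = a * ZD p L (fun _ => 1) D n + p * ML L n / r := by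
    intro D n
    have hden0 : 0 < den p L (fun _ => 1) := by linarith
    unfold SD ZD ML
    rw [ha]
    simp only [one_mul]
    field_simp
    ring
  have hd : ∀ b c : ℕ, ‖EW w L (fun D => cexp (((s * SD r D b + t * SD r D c : ℝ) : ℂ) * I)) -
      ED p L (fun D => cexp (((s * SD r D b + t * SD r D c : ℝ) : ℂ) * I))‖ ≤ γ := by
    intro b c
    have e0 : ∀ D : Finset ℕ, cexp (((s * SD r D b + t * SD r D c : ℝ) : ℂ) * I) =
        cexp (((s * (p * ML L b / r) + t * (p * ML L c / r) : ℝ) : ℂ) * I) *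
        cexp (((a * s * ZD p L (fun _ => 1) D b + a * t * ZD p L (fun _ => 1) D c : ℝ) : ℂ) * I) := by
      intro D
      rw [← Complex.exp_add, hid D b, hid D c]
      congr 1
      push_cast
      ring
    have e1 : EW w L (fun D => cexp (((s * SD r D b + t * SD r D c : ℝ) : ℂ) * I)) -
        ED p L (fun D => cexp (((s * SD r D b + t * SD r D c : ℝ) : ℂ) * I)) =
        cexp (((s * (p * ML L b / r) + t * (p * ML L c / r) : ℝ) : ℂ) * I) *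
        (EW w L (fun D => cexp (((a * s * ZD p L (fun _ => 1) D b + a * t * ZD p L (fun _ => 1) D c : ℝ) : ℂ) * I)) -
        ED p L (fun D => cexp (((a * s * ZD p L (fun _ => 1) D b + a * t * ZD p L (fun _ => 1) D c : ℝ) : ℂ) * I))) := by
      unfold EW ED
      simp only [e0]
      rw [mul_sub, mul_sum, mul_sum]
      congr 1
      · apply sum_congr rfl
        intro D _
        ring
      · apply sum_congr rfl
        intro D _
        ring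
    rw [e1, norm_mul, Complex.norm_exp_ofReal_mul_I, one_mul]
    refine (pair_kw hw hp0 hp1 hL1 (even_two_mul _) (fun _ => 1) (by simp) 1 one_pos (by rw [hsg]) T hT hden (b, c)
      (a * s) (a * t) hs ht).trans ?_
    rw [← hE]
    have h3 : 4 / (L : ℝ) ≤ γ / 2 := by
      rw [div_le_iff₀ hγ] at hN2
      rw [div_le_div_iff₀ hLp (by norm_num)]
      have : (N : ℝ) * γ ≤ L * γ := mul_le_mul_of_nonneg_right (by linarith) hγ.le
      linarith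
    have h4 : 4 * (1 / 2 : ℝ) ^ (2 * (n + N + 1)) * E ≤ γ / 2 := by
      have h5 : (1 / 2 : ℝ) ^ (2 * (n + N + 1)) ≤ (1 / 2 : ℝ) ^ n :=
        pow_le_pow_of_le_one (by norm_num) (by norm_num) (by omega)
      have h6 := h5.trans hn.le
      calc 4 * (1 / 2 : ℝ) ^ (2 * (n + N + 1)) * E ≤ 4 * (γ / (8 * E)) * E := by gcongr
        _ = γ / 2 := by
            field_simp
            ring
    linarith
  rw [ch_mul', ch_mul]
  have e2 : (∑ n ∈ A, ∑ n' ∈ A, EW w L (fun D => cexp (((s * SD r D n + t * SD r D n' : ℝ) : ℂ) * I))) / (#A : ℂ) ^ 2 -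
      (∑ n ∈ A, ∑ n' ∈ A, ED p L (fun D => cexp (((s * SD r D n + t * SD r D n' : ℝ) : ℂ) * I))) / (#A : ℂ) ^ 2 =
      (∑ P ∈ A ×ˢ A, (EW w L (fun D => cexp (((s * SD r D P.1 + t * SD r D P.2 : ℝ) : ℂ) * I)) -
        ED p L (fun D => cexp (((s * SD r D P.1 + t * SD r D P.2 : ℝ) : ℂ) * I)))) / ((#A : ℝ) : ℂ) ^ 2 := by
    rw [sum_product, ← sub_div]
    simp only [sum_sub_distrib]
    push_cast
    rfl
  rw [e2, norm_div, norm_pow, Complex.norm_real, Real.norm_of_nonneg hA0.le, div_le_iff₀ (by positivity)]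
  refine (norm_sum_le _ _).trans ?_
  calc ∑ P ∈ A ×ˢ A, ‖EW w L (fun D => cexp (((s * SD r D P.1 + t * SD r D P.2 : ℝ) : ℂ) * I)) -
        ED p L (fun D => cexp (((s * SD r D P.1 + t * SD r D P.2 : ℝ) : ℂ) * I))‖ ≤ ∑ P ∈ A ×ˢ A, γ :=
          sum_le_sum (fun P _ => hd P.1 P.2)
    _ = γ * (#A : ℝ) ^ 2 := by
        rw [sum_const, card_product, nsmul_eq_mul]
        push_cast
        ring

/-- the mass of the subsets `D` for which the law of the sum is not close to the gaussian law -/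
noncomputable def badw (w : Finset ℕ → ℝ) (p H η X : ℝ) : ℝ :=
  ∑ D ∈ (Icc 1 ⌊H⌋₊).powerset, (open Classical in
    if ∀ t, |df (Icc ⌊X⌋₊ (2 * ⌊X⌋₊)) (SD (rr p H) D) t - Phi t| ≤ η then 0 else w D)

/-- the Gaussian law for the whole windows gives the one for most subsets -/
theorem to_kw (p : ℝ) (hp0 : 0 < p) (hp1 : p < 1) (H : ℝ → ℝ) (h1 : Tendsto H atTop atTop)
    (h2 : Tendsto (fun X => H X / X) atTop (𝓝 0))
    (h : ∀ τ : ℝ, Tendsto (fun X : ℝ => ch (Icc ⌊X⌋₊ (2 * ⌊X⌋₊)) (fun n => ML ⌊H X⌋₊ n / nrm (H X)) τ) atTop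
      (𝓝 ((Real.exp (-(τ ^ 2 / 2)) : ℝ) : ℂ))) (η : ℝ) (hη : 0 < η) :
    ∃ K : ℕ, ∀ᶠ X : ℝ in atTop, ∀ w : Finset ℕ → ℝ, Pseudo K p ⌊H X⌋₊ w → badw w p (H X) η X ≤ η := by
  by_contra hcon
  push Not at hcon
  have hc : ∀ m : ℕ, ∃ x : ℝ, (m : ℝ) ≤ x ∧ 1 ≤ H x ∧ ∃ w : Finset ℕ → ℝ, Pseudo (m + 1) p ⌊H x⌋₊ w ∧ η < badw w p (H x) η x := by
    intro m
    obtain ⟨x, hx, hx1, hx2⟩ := ((hcon (m + 1)).and_eventually
      ((eventually_ge_atTop (m : ℝ)).and (h1.eventually_ge_atTop 1))).exists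
    exact ⟨x, hx1, hx2, hx⟩
  choose x hx1 hxH w hw hbad using hc
  have hx : Tendsto x atTop atTop := tendsto_atTop_mono hx1 tendsto_natCast_atTop_atTop
  have hL1 : ∀ m, 1 ≤ ⌊H (x m)⌋₊ := fun m => Nat.le_floor (by simpa using hxH m)
  obtain ⟨M, hM⟩ := law2 (fun m => (Icc 1 ⌊H (x m)⌋₊).powerset) w
    (fun m D hD => (hw m).nonneg D hD) (fun m => (hw m).sum_one) (fun m => Icc ⌊x m⌋₊ (2 * ⌊x m⌋₊))
    (fun m => by simp; omega) (fun m D => SD (rr p (H (x m))) D) (by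
      intro s t
      have g1 := (prod_tendsto p hp0 hp1 H h1 h2 h s t).comp hx
      have g2 : Tendsto (fun m => ∑ D ∈ (Icc 1 ⌊H (x m)⌋₊).powerset, (w m D : ℂ) *
          (ch (Icc ⌊x m⌋₊ (2 * ⌊x m⌋₊)) (SD (rr p (H (x m))) D) s * ch (Icc ⌊x m⌋₊ (2 * ⌊x m⌋₊)) (SD (rr p (H (x m))) D) t) -
          ∑ D ∈ (Icc 1 ⌊H (x m)⌋₊).powerset, (wt p ⌊H (x m)⌋₊ D : ℂ) *
          (ch (Icc ⌊x m⌋₊ (2 * ⌊x m⌋₊)) (SD (rr p (H (x m))) D) s * ch (Icc ⌊x m⌋₊ (2 * ⌊x m⌋₊)) (SD (rr p (H (x m))) D) t))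
          atTop (𝓝 0) := by
        rw [Metric.tendsto_nhds]
        intro γ hγ
        obtain ⟨T, hT⟩ : ∃ T : ℝ, T = 1 + |s| + |t| := ⟨_, rfl⟩
        have hs0 := abs_nonneg s
        have ht0 := abs_nonneg t
        obtain ⟨K, hK1, hK⟩ := diffK p hp0 hp1 T (γ / 2) (by linarith) (by positivity)
        filter_upwards [hx.eventually (ev_all p hp0 hp1 H h1 h2 K), eventually_ge_atTop K] with m hX hm
        obtain ⟨b1, b2, b3, b4⟩ := hX
        have hr := rr_pos p (H (x m)) hp0 (by linarith)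
        have ha1 : |den p ⌊H (x m)⌋₊ (fun _ => 1) / rr p (H (x m))| ≤ 1 := by
          rw [← sq_le_one_iff_abs_le_one, a_sq p (H (x m)) hp0 hp1 b2]
          have : (⌊H (x m)⌋₊ : ℝ) / H (x m) ≤ 1 := by
            rw [div_le_one (by linarith)]
            exact Nat.floor_le (by linarith)
          have h0 : 0 ≤ (⌊H (x m)⌋₊ : ℝ) / H (x m) := by positivity
          nlinarith
        have h3 := hK ⌊H (x m)⌋₊ b3 (w m) ((hw m).mono (by omega) (hL1 m)) (Icc ⌊x m⌋₊ (2 * ⌊x m⌋₊)) (by simp; omega)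
          (rr p (H (x m))) hr s t (by
          rw [abs_mul]
          have := mul_le_of_le_one_left hs0 ha1
          linarith) (by
          rw [abs_mul]
          have := mul_le_of_le_one_left ht0 ha1
          linarith)
        rw [dist_zero_right]
        linarith
      have g3 := g2.add g1
      rw [zero_add] at g3
      refine g3.congr (fun m => ?_)
      simp only [Function.comp]
      ring) η hη
  exact absurd (hM M le_rfl) (not_le.2 (hbad M))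

/-- the Gaussian law for a positive proportion of the subsets gives the one for the whole windows -/
theorem of_kw (p : ℝ) (hp0 : 0 < p) (hp1 : p < 1) (H : ℝ → ℝ) (h1 : Tendsto H atTop atTop)
    (h2 : Tendsto (fun X => H X / X) atTop (𝓝 0)) (κ : ℝ) (hκ : 0 < κ)
    (h : ∀ η : ℝ, 0 < η → ∀ K : ℕ, ∀ᶠ X : ℝ in atTop, ∃ w : Finset ℕ → ℝ, Pseudo K p ⌊H X⌋₊ w ∧
      badw w p (H X) η X ≤ 1 - κ) (τ : ℝ) :
    Tendsto (fun X : ℝ => ch (Icc ⌊X⌋₊ (2 * ⌊X⌋₊)) (fun n => ML ⌊H X⌋₊ n / nrm (H X)) τ) atTop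
      (𝓝 ((Real.exp (-(τ ^ 2 / 2)) : ℝ) : ℂ)) := by
  have hq : 0 < 1 - p := by linarith
  have hsp := Real.sqrt_pos.2 hp0
  obtain ⟨s, hs⟩ : ∃ s : ℝ, s = τ / Real.sqrt p := ⟨_, rfl⟩
  have hsτ : Real.sqrt p * s = τ := by rw [hs]; field_simp
  have hs2 : p * s ^ 2 = τ ^ 2 := by
    rw [← hsτ, mul_pow, Real.sq_sqrt hp0.le]
  have hfl : Tendsto (fun X => (⌊H X⌋₊ : ℝ) / H X) atTop (𝓝 1) := (tendsto_nat_floor_div_atTop (R := ℝ)).comp h1
  -- the deterministic factor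
  obtain ⟨g, hg⟩ : ∃ g : ℝ → ℝ, ∀ X, g X = (1 - p) * (⌊H X⌋₊ / H X) * s ^ 2 / 2 := ⟨_, fun _ => rfl⟩
  have hgl : Tendsto g atTop (𝓝 ((1 - p) * 1 * s ^ 2 / 2)) := by
    have : Tendsto (fun X => (1 - p) * (⌊H X⌋₊ / H X) * s ^ 2 / 2) atTop (𝓝 ((1 - p) * 1 * s ^ 2 / 2)) :=
      ((hfl.const_mul _).mul_const _).div_const _
    exact this.congr (fun X => (hg X).symm)
  -- closeness for the product
  have key : ∀ δ : ℝ, 0 < δ → ∀ᶠ X : ℝ in atTop,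
      ‖((Real.exp (-(g X)) : ℝ) : ℂ) * ch (Icc ⌊X⌋₊ (2 * ⌊X⌋₊)) (fun n => ML ⌊H X⌋₊ n / nrm (H X)) τ -
        ((Real.exp (-(s ^ 2 / 2)) : ℝ) : ℂ)‖ ≤ 2 * δ := by
    intro δ hδ
    obtain ⟨η, hη, hclose⟩ := close_char s δ hδ
    obtain ⟨T, hT⟩ : ∃ T : ℝ, T = 1 + |s| := ⟨_, rfl⟩
    have hs0 := abs_nonneg s
    obtain ⟨γ, hγ⟩ : ∃ γ : ℝ, γ = κ * δ ^ 2 / 6 := ⟨_, rfl⟩
    have hγ0 : 0 < γ := by rw [hγ]; positivity
    obtain ⟨K₀, hK1, hK⟩ := core p hp0 hp1 T (γ / 2) (by linarith) (by positivity)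
    obtain ⟨K, hK2, hdK⟩ := diffK p hp0 hp1 T (γ / 2) (by linarith) (by positivity)
    filter_upwards [ev_all p hp0 hp1 H h1 h2 K₀, ev_all p hp0 hp1 H h1 h2 K, h η hη K] with X hX hX' hbX'
    obtain ⟨b1, b2, b3, b4⟩ := hX
    obtain ⟨w, hps, hbX⟩ := hbX'
    have hr := rr_pos p (H X) hp0 (by linarith)
    obtain ⟨A, hA⟩ : ∃ A : Finset ℕ, A = Icc ⌊X⌋₊ (2 * ⌊X⌋₊) := ⟨_, rfl⟩
    have hAn : A.Nonempty := by rw [hA]; simp; omega
    have ha1 : |den p ⌊H X⌋₊ (fun _ => 1) / rr p (H X)| ≤ 1 := by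
      rw [← sq_le_one_iff_abs_le_one, a_sq p (H X) hp0 hp1 b2]
      have : (⌊H X⌋₊ : ℝ) / H X ≤ 1 := by
        rw [div_le_one (by linarith)]
        exact Nat.floor_le (by linarith)
      have h0 : 0 ≤ (⌊H X⌋₊ : ℝ) / H X := by positivity
      nlinarith
    have hst : |den p ⌊H X⌋₊ (fun _ => 1) / rr p (H X) * s| ≤ T := by
      rw [abs_mul]
      have := mul_le_of_le_one_left hs0 ha1
      linarith
    have q1a := hK ⌊H X⌋₊ b3 ⌊X⌋₊ b4 (rr p (H X)) hr s (-s) hst (by rw [mul_neg, abs_neg]; exact hst)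
    have q2a := hK ⌊H X⌋₊ b3 ⌊X⌋₊ b4 (rr p (H X)) hr s 0 hst (by simp; linarith)
    have q1b := hdK ⌊H X⌋₊ hX'.2.2.1 w hps A hAn (rr p (H X)) hr s (-s) hst (by rw [mul_neg, abs_neg]; exact hst)
    have q2b := hdK ⌊H X⌋₊ hX'.2.2.1 w hps A hAn (rr p (H X)) hr s 0 hst (by simp; linarith)
    rw [← hA] at q1a q2a
    have q1 := (norm_sub_le_norm_sub_add_norm_sub _ _ _).trans (add_le_add q1b q1a)
    have q2 := (norm_sub_le_norm_sub_add_norm_sub _ _ _).trans (add_le_add q2b q2a)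
    rw [add_halves] at q1 q2
    have hgX : (den p ⌊H X⌋₊ (fun _ => 1) / rr p (H X) * s) ^ 2 / 2 = g X := by
      rw [hg, mul_pow, a_sq p (H X) hp0 hp1 b2]
    have hpch := p_ch p (H X) hp0 b2 A ⌊H X⌋₊ s
    rw [hsτ] at hpch
    obtain ⟨c, hc⟩ : ∃ c : ℂ, c = ch A (fun n => ML ⌊H X⌋₊ n / nrm (H X)) τ := ⟨_, rfl⟩
    obtain ⟨ψ, hψ⟩ : ∃ ψ : ℂ, ψ = ((Real.exp (-(g X)) : ℝ) : ℂ) * c := ⟨_, rfl⟩
    rw [← hc] at hpch
    have r1 : ((Real.exp (-(((den p ⌊H X⌋₊ (fun _ => 1) / rr p (H X) * s) ^ 2 +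
        (den p ⌊H X⌋₊ (fun _ => 1) / rr p (H X) * -s) ^ 2) / 2)) : ℝ) : ℂ) *
        (ch A (fun n => p * ML ⌊H X⌋₊ n / rr p (H X)) s * ch A (fun n => p * ML ⌊H X⌋₊ n / rr p (H X)) (-s)) =
        ψ * (starRingEnd ℂ) ψ := by
      rw [ch_neg, hpch, hψ, map_mul, Complex.conj_ofReal]
      have : Real.exp (-(((den p ⌊H X⌋₊ (fun _ => 1) / rr p (H X) * s) ^ 2 +
        (den p ⌊H X⌋₊ (fun _ => 1) / rr p (H X) * -s) ^ 2) / 2)) = Real.exp (-(g X)) * Real.exp (-(g X)) := by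
        rw [← Real.exp_add, ← hgX]
        congr 1
        ring
      rw [this]
      push_cast
      ring
    have r2 : ((Real.exp (-(((den p ⌊H X⌋₊ (fun _ => 1) / rr p (H X) * s) ^ 2 +
        (den p ⌊H X⌋₊ (fun _ => 1) / rr p (H X) * 0) ^ 2) / 2)) : ℝ) : ℂ) *
        (ch A (fun n => p * ML ⌊H X⌋₊ n / rr p (H X)) s * ch A (fun n => p * ML ⌊H X⌋₊ n / rr p (H X)) 0) = ψ := by
      rw [ch_zero A hAn, hpch, hψ, mul_one, mul_zero]
      have : ((den p ⌊H X⌋₊ (fun _ => 1) / rr p (H X) * s) ^ 2 + (0 : ℝ) ^ 2) / 2 = g X := by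
        rw [← hgX]
        ring
      rw [this]
    rw [r1] at q1
    rw [r2] at q2
    -- the mean square
    obtain ⟨φ, hφ⟩ : ∃ φ : Finset ℕ → ℂ, ∀ D, φ D = ch A (SD (rr p (H X)) D) s := ⟨_, fun _ => rfl⟩
    have hw0 : ∀ D ∈ (Icc 1 ⌊H X⌋₊).powerset, 0 ≤ w D := hps.nonneg
    have hw1 : ∑ D ∈ (Icc 1 ⌊H X⌋₊).powerset, w D = 1 := hps.sum_one
    have q1' : ‖∑ D ∈ (Icc 1 ⌊H X⌋₊).powerset, (w D : ℂ) * (φ D * (starRingEnd ℂ) (φ D)) - ψ * (starRingEnd ℂ) ψ‖ ≤ γ := by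
      refine le_trans (le_of_eq ?_) q1
      congr 2
      apply sum_congr rfl
      intro D _
      rw [hφ, ch_neg]
    have q2' : ‖∑ D ∈ (Icc 1 ⌊H X⌋₊).powerset, (w D : ℂ) * φ D - ψ‖ ≤ γ := by
      refine le_trans (le_of_eq ?_) q2
      congr 2
      apply sum_congr rfl
      intro D _
      rw [hφ, ch_zero A hAn, mul_one]
    have hψ1 : ‖ψ‖ ≤ 1 := by
      rw [hψ, norm_mul, Complex.norm_real, Real.norm_of_nonneg (Real.exp_pos _).le]
      have : Real.exp (-(g X)) ≤ 1 := by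
        rw [Real.exp_le_one_iff, hg]
        have : 0 ≤ (1 - p) * ((⌊H X⌋₊ : ℝ) / H X) * s ^ 2 / 2 := by
          have : 0 ≤ (⌊H X⌋₊ : ℝ) / H X := by
            apply div_nonneg (by positivity) (by linarith)
          positivity
        linarith
      have h3 : ‖c‖ ≤ 1 := by rw [hc]; exact ch_norm _ _ _
      exact mul_le_one₀ this (norm_nonneg _) h3
    have hms : ∑ D ∈ (Icc 1 ⌊H X⌋₊).powerset, w D * ‖φ D - ψ‖ ^ 2 ≤ 3 * γ := by
      have e1 : ((∑ D ∈ (Icc 1 ⌊H X⌋₊).powerset, w D * ‖φ D - ψ‖ ^ 2 : ℝ) : ℂ) =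
          (∑ D ∈ (Icc 1 ⌊H X⌋₊).powerset, (w D : ℂ) * (φ D * (starRingEnd ℂ) (φ D)) - ψ * (starRingEnd ℂ) ψ) -
          (∑ D ∈ (Icc 1 ⌊H X⌋₊).powerset, (w D : ℂ) * φ D - ψ) * (starRingEnd ℂ) ψ -
          (starRingEnd ℂ) (∑ D ∈ (Icc 1 ⌊H X⌋₊).powerset, (w D : ℂ) * φ D - ψ) * ψ := by
        have e2 : ∀ D, (((w D * ‖φ D - ψ‖ ^ 2 : ℝ)) : ℂ) = (w D : ℂ) * (φ D * (starRingEnd ℂ) (φ D)) -
            ((w D : ℂ) * φ D) * (starRingEnd ℂ) ψ - ((w D : ℂ) * (starRingEnd ℂ) (φ D)) * ψ +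
            (w D : ℂ) * (ψ * (starRingEnd ℂ) ψ) := by
          intro D
          have e3 : ((‖φ D - ψ‖ ^ 2 : ℝ) : ℂ) = (φ D - ψ) * (starRingEnd ℂ) (φ D - ψ) := by
            rw [Complex.mul_conj, Complex.normSq_eq_norm_sq]
          rw [Complex.ofReal_mul, e3, map_sub]
          ring
        rw [Complex.ofReal_sum]
        simp only [e2]
        rw [sum_add_distrib, sum_sub_distrib, sum_sub_distrib, ← sum_mul, ← sum_mul, ← sum_mul]
        have e4 : ∑ D ∈ (Icc 1 ⌊H X⌋₊).powerset, (w D : ℂ) = 1 := by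
          rw [← Complex.ofReal_sum, hw1, Complex.ofReal_one]
        have e5 : ∑ D ∈ (Icc 1 ⌊H X⌋₊).powerset, (w D : ℂ) * (starRingEnd ℂ) (φ D) =
            (starRingEnd ℂ) (∑ D ∈ (Icc 1 ⌊H X⌋₊).powerset, (w D : ℂ) * φ D) := by
          rw [map_sum]
          apply sum_congr rfl
          intro D _
          rw [map_mul, Complex.conj_ofReal]
        rw [e4, e5, map_sub]
        ring
      have e6 : ‖((∑ D ∈ (Icc 1 ⌊H X⌋₊).powerset, w D * ‖φ D - ψ‖ ^ 2 : ℝ) : ℂ)‖ ≤ 3 * γ := by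
        rw [e1]
        refine (norm_sub_le _ _).trans ?_
        have f1 : ‖(∑ D ∈ (Icc 1 ⌊H X⌋₊).powerset, (w D : ℂ) * φ D - ψ) * (starRingEnd ℂ) ψ‖ ≤ γ := by
          rw [norm_mul, RCLike.norm_conj]
          exact (mul_le_of_le_one_right (norm_nonneg _) hψ1).trans q2'
        have f2 : ‖(starRingEnd ℂ) (∑ D ∈ (Icc 1 ⌊H X⌋₊).powerset, (w D : ℂ) * φ D - ψ) * ψ‖ ≤ γ := by
          rw [norm_mul, RCLike.norm_conj]
          exact (mul_le_of_le_one_right (norm_nonneg _) hψ1).trans q2'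
        have f3 := norm_sub_le (∑ D ∈ (Icc 1 ⌊H X⌋₊).powerset, (w D : ℂ) * (φ D * (starRingEnd ℂ) (φ D)) - ψ * (starRingEnd ℂ) ψ)
          ((∑ D ∈ (Icc 1 ⌊H X⌋₊).powerset, (w D : ℂ) * φ D - ψ) * (starRingEnd ℂ) ψ)
        linarith
      rw [Complex.norm_real] at e6
      exact (le_abs_self _).trans e6
    -- there is a good subset
    have hex : ∃ D ∈ (Icc 1 ⌊H X⌋₊).powerset, (∀ t, |df A (SD (rr p (H X)) D) t - Phi t| ≤ η) ∧ ‖φ D - ψ‖ ≤ δ := by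
      by_contra hno
      push Not at hno
      have h3 : ∑ D ∈ (Icc 1 ⌊H X⌋₊).powerset, w D ≤ badw w p (H X) η X +
          ∑ D ∈ (Icc 1 ⌊H X⌋₊).powerset, w D * ‖φ D - ψ‖ ^ 2 / δ ^ 2 := by
        unfold badw
        rw [← sum_add_distrib]
        apply sum_le_sum
        intro D hD
        rw [← hA]
        split_ifs with hcl
        · have h4 := hno D hD hcl
          rw [zero_add, le_div_iff₀ (by positivity)]
          exact mul_le_mul_of_nonneg_left (pow_le_pow_left₀ hδ.le h4.le 2) (hw0 D hD)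
        · have : 0 ≤ w D * ‖φ D - ψ‖ ^ 2 / δ ^ 2 := div_nonneg (mul_nonneg (hw0 D hD) (by positivity)) (by positivity)
          linarith
      rw [hw1, ← sum_div] at h3
      have h5 : (∑ D ∈ (Icc 1 ⌊H X⌋₊).powerset, w D * ‖φ D - ψ‖ ^ 2) / δ ^ 2 ≤ κ / 2 := by
        rw [div_le_iff₀ (by positivity)]
        rw [hγ] at hms
        linarith
      linarith
    obtain ⟨D, _, hD1, hD2⟩ := hex
    have h6 := hclose A hAn (SD (rr p (H X)) D) hD1
    rw [← hφ] at h6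
    rw [← hA, ← hc, ← hψ]
    calc ‖ψ - ((Real.exp (-(s ^ 2 / 2)) : ℝ) : ℂ)‖ ≤ ‖ψ - φ D‖ + ‖φ D - ((Real.exp (-(s ^ 2 / 2)) : ℝ) : ℂ)‖ :=
          norm_sub_le_norm_sub_add_norm_sub _ _ _
      _ ≤ 2 * δ := by
          rw [norm_sub_rev]
          linarith
  -- conclusion
  have hprod : Tendsto (fun X : ℝ => ((Real.exp (-(g X)) : ℝ) : ℂ) *
      ch (Icc ⌊X⌋₊ (2 * ⌊X⌋₊)) (fun n => ML ⌊H X⌋₊ n / nrm (H X)) τ) atTop (𝓝 ((Real.exp (-(s ^ 2 / 2)) : ℝ) : ℂ)) := by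
    rw [Metric.tendsto_nhds]
    intro δ hδ
    filter_upwards [key (δ / 4) (by positivity)] with X hX
    rw [dist_eq_norm]
    linarith
  have hexp : Tendsto (fun X : ℝ => ((Real.exp (g X) : ℝ) : ℂ)) atTop (𝓝 ((Real.exp ((1 - p) * 1 * s ^ 2 / 2) : ℝ) : ℂ)) :=
    (Complex.continuous_ofReal.tendsto _).comp ((Real.continuous_exp.tendsto _).comp hgl)
  have hfin := hexp.mul hprod
  have e1 : ((Real.exp ((1 - p) * 1 * s ^ 2 / 2) : ℝ) : ℂ) * ((Real.exp (-(s ^ 2 / 2)) : ℝ) : ℂ) =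
      ((Real.exp (-(τ ^ 2 / 2)) : ℝ) : ℂ) := by
    rw [← Complex.ofReal_mul, ← Real.exp_add, ← hs2]
    congr 2
    ring
  rw [e1] at hfin
  refine hfin.congr (fun X => ?_)
  rw [← mul_assoc, ← Complex.ofReal_mul, ← Real.exp_add, add_neg_cancel, Real.exp_zero, Complex.ofReal_one, one_mul]

end Pool.Agent.J4.H36.KW
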